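import Pool.Agent.H373Z.Met.Lehman

set_option autoImplicit false

namespace Pool.Agent.H373Z.Met

open Finset

lemma tight_span {U : Type*} [Fintype U] (bar : U → U) (hb : ∀ u, bar (bar u) = u)
    (D₀ : U → U → ℝ) (h0 : ∀ u, D₀ u u = 0) (h1 : ∀ u v, D₀ u v = D₀ v u)
    (h2 : ∀ u v w, D₀ u w ≤ D₀ u v + D₀ v w) (h3 : ∀ u v, D₀ (bar u) (bar v) = D₀ u v)
    (h4 : ∀ u, 1 ≤ D₀ u (bar u)) (h5 : ∀ u v, D₀ u v ≤ 1) :
    ∃ D : U → U → ℝ, (∀ u, D u u = 0) ∧ (∀ u v, D u v = D v u) ∧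
      (∀ u v w, D u w ≤ D u v + D v w) ∧ (∀ u v, D u v ≤ D₀ u v) ∧
      ∀ u v, D u v + D u (bar v) = 1 := by
  let K : Set (U → U → ℝ) := {D | (∀ u, D u u = 0) ∧ (∀ u v, D u v = D v u) ∧
    (∀ u v w, D u w ≤ D u v + D v w) ∧ (∀ u v, D (bar u) (bar v) = D u v) ∧
    (∀ u, 1 ≤ D u (bar u)) ∧ ∀ u v, D u v ≤ D₀ u v}
  have hnn : ∀ D ∈ K, ∀ u v, 0 ≤ D u v := fun D hD u v => by
    linarith [hD.2.2.1 u v u, hD.1 u, hD.2.1 u v]
  have hK : IsCompact K := by
    refine (isCompact_Icc (a := 0) (b := D₀)).of_isClosed_subset ?_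
      fun D hD => ⟨fun u v => hnn D hD u v, fun u v => hD.2.2.2.2.2 u v⟩
    simp only [K, Set.ofPred_and, Set.ofPred_forall]
    refine (isClosed_iInter fun u => isClosed_eq (by fun_prop) (by fun_prop)).inter
      ((isClosed_iInter fun u => isClosed_iInter fun v =>
        isClosed_eq (by fun_prop) (by fun_prop)).inter
      ((isClosed_iInter fun u => isClosed_iInter fun v => isClosed_iInter fun w =>
        isClosed_le (by fun_prop) (by fun_prop)).inter
      ((isClosed_iInter fun u => isClosed_iInter fun v =>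
        isClosed_eq (by fun_prop) (by fun_prop)).inter
      ((isClosed_iInter fun u => isClosed_le (by fun_prop) (by fun_prop)).inter
      (isClosed_iInter fun u => isClosed_iInter fun v =>
        isClosed_le (by fun_prop) (by fun_prop))))))
  obtain ⟨D, hD, hmin⟩ := hK.exists_isMinOn (f := fun D => ∑ p : U × U, D p.1 p.2)
    ⟨D₀, h0, h1, h2, h3, h4, fun _ _ => le_rfl⟩ (by fun_prop)
  have a7 := hnn D hD
  obtain ⟨a0, a1, a2, a3, a4, a5⟩ := hD
  have a6 : ∀ u v, D (bar u) v = D u (bar v) := fun u v => by rw [← a3, hb]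
  refine ⟨D, a0, a1, a2, a5, fun i j => le_antisymm ?_ (by linarith [a2 j i (bar j), a1 i j, a4 j])⟩
  by_contra hn
  set a := 1 - D i (bar j) with ha
  have ha0 : 0 ≤ a := by linarith [a5 i (bar j), h5 i (bar j)]
  let F : U → U → ℝ := fun u v => min (D u v) (min (D u i + a + D j v) (D u j + a + D i v))
  have f1 : ∀ u v, F u v ≤ D u v := fun u v => min_le_left _ _
  have f2 : ∀ u v, F u v ≤ D u i + a + D j v := fun u v => (min_le_right _ _).trans (min_le_left _ _)
  have f3 : ∀ u v, F u v ≤ D u j + a + D i v := fun u v =>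
    (min_le_right _ _).trans (min_le_right _ _)
  have f4 : ∀ u v, F u v = D u v ∨ F u v = D u i + a + D j v ∨ F u v = D u j + a + D i v := by
    intro u v
    rcases min_choice (D u v) (min (D u i + a + D j v) (D u j + a + D i v)) with h | h
    · exact Or.inl h
    · exact Or.inr (by simp only [F]; rw [h]; exact min_choice _ _)
  have g0 : ∀ u, F u u = 0 := fun u => le_antisymm ((f1 u u).trans (a0 u).le)
    (by rcases f4 u u with h | h | h <;> linarith [a0 u, a7 u i, a7 j u, a7 u j, a7 i u])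
  have g1 : ∀ u v, F u v ≤ F v u := fun u v => by
    rcases f4 v u with h | h | h <;>
      linarith [f1 u v, f2 u v, f3 u v, a1 u v, a1 v i, a1 j u, a1 v j, a1 i u]
  have g2 : ∀ u v w, F u w ≤ F u v + F v w := fun u v w => by
    have b1 := f1 u w
    have b2 := f2 u w
    have b3 := f3 u w
    rcases f4 u v with h | h | h <;> rcases f4 v w with h' | h' | h' <;> rw [h, h']
    · linarith [a2 u v w]
    · linarith [a2 u v i]
    · linarith [a2 u v j]
    · linarith [a2 j v w]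
    · linarith [a7 j v, a7 v i]
    · linarith [a2 u i w, a7 j v, a7 v j]
    · linarith [a2 i v w]
    · linarith [a2 u j w, a7 i v, a7 v i]
    · linarith [a7 i v, a7 v j]
  have g4 : ∀ u, 1 ≤ F u (bar u) := fun u => by
    rcases f4 u (bar u) with h | h | h <;> rw [h]
    · exact a4 u
    · linarith [a2 i u (bar j), a1 u i, a6 u j, a1 j (bar u)]
    · linarith [a2 (bar i) u j, a6 i u, a6 i j]
  have := isMinOn_iff.mp hmin (fun u v => (F u v + F (bar u) (bar v)) / 2)
    ⟨fun u => by simp [g0], fun u v => by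
      linarith [g1 u v, g1 v u, g1 (bar u) (bar v), g1 (bar v) (bar u)],
      fun u v w => by linarith [g2 u v w, g2 (bar u) (bar v) (bar w)],
      fun u v => by simp only [hb]; ring, fun u => by linarith [g4 u, g4 (bar u)],
      fun u v => by linarith [f1 u v, f1 (bar u) (bar v), a3 u v, a5 u v]⟩
  refine absurd this (not_le.mpr (sum_lt_sum (fun p _ => ?_) ⟨(i, j), mem_univ _, ?_⟩))
  · linarith [f1 p.1 p.2, f1 (bar p.1) (bar p.2), a3 p.1 p.2]
  · have := f2 i j
    simp only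
    linarith [f1 (bar i) (bar j), a3 i j, a0 i, a0 j]

variable {ι : Type}

/-- signed pairs -/
abbrev SE (ι : Type) := ι × ι × ZMod 2

/-- switching of a number -/
noncomputable def fl (β : ZMod 2) (t : ℝ) : ℝ := if β = 0 then t else 1 - t

@[simp] lemma fl_zero (t : ℝ) : fl 0 t = t := if_pos rfl
@[simp] lemma fl_one (t : ℝ) : fl 1 t = 1 - t := if_neg one_ne_zero
@[simp] lemma two_z : (1 + 1 : ZMod 2) = 0 := by decide
lemma self_z (z : ZMod 2) : z + z = 0 := by revert z; decide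

lemma fl_fl (a b : ZMod 2) (t : ℝ) : fl a (fl b t) = fl (a + b) t := by
  rcases z2 a with rfl | rfl <;> rcases z2 b with rfl | rfl <;> simp

/-- the metric polytope -/
def MET (ι : Type) : Set (ι → ι → ℝ) := {x | (∀ i, x i i = 0) ∧ (∀ i j, x i j = x j i) ∧
  (∀ i j k, x i j ≤ x i k + x k j) ∧ (∀ i j k, x i j + x i k + x j k ≤ 2)}

/-- length of a signed pair -/
noncomputable def len (x : ι → ι → ℝ) (p : SE ι) : ℝ := fl p.2.2 (x p.1 p.2.1)

/-- parity of a signed pair under a two-colouring -/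
def par (s : ι → ZMod 2) (p : SE ι) : ZMod 2 := p.2.2 + s p.1 + s p.2.1

lemma fl_tri {x : ι → ι → ℝ} (hx : x ∈ MET ι) (a b : ZMod 2) (i j k : ι) :
    fl (a + b) (x i k) ≤ fl a (x i j) + fl b (x j k) := by
  obtain ⟨-, h1, h2, h3⟩ := hx
  rcases z2 a with rfl | rfl <;> rcases z2 b with rfl | rfl <;> simp
  · exact h2 i k j
  · linarith [h2 j k i, h1 i j]
  · linarith [h2 i j k, h1 j k]
  · linarith [h3 i j k]

lemma fl_nonneg {x : ι → ι → ℝ} (hx : x ∈ MET ι) (a : ZMod 2) (i j : ι) : 0 ≤ fl a (x i j) := by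
  have := fl_tri hx a a i j i
  rw [self_z, fl_zero, hx.1, hx.2.1 j i] at this
  linarith

lemma incident [DecidableEq ι] {E : Type*} (g : E → SE ι) (J : Finset E) (b : ι)
    (h : ∑ e ∈ J, par (Pi.single b 1) (g e) ≠ ∑ e ∈ J, par 0 (g e)) :
    ∃ e ∈ J, ∃ c, (∀ s, par s (g e) = (g e).2.2 + s b + s c) ∧
      ∀ x ∈ MET ι, len x (g e) = fl (g e).2.2 (x b c) := by
  obtain ⟨e, he, h1⟩ : ∃ e ∈ J, par (Pi.single b 1) (g e) ≠ par 0 (g e) := by
    by_contra hn
    push Not at hn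
    exact h (sum_congr rfl hn)
  refine ⟨e, he, ?_⟩
  by_cases h2 : (g e).1 = b
  · exact ⟨(g e).2.1, fun s => by rw [par, h2], fun x _ => by rw [len, h2]⟩
  · by_cases h3 : (g e).2.1 = b
    · exact ⟨(g e).1, fun s => by rw [par, h3]; ring, fun x hx => by rw [len, h3, hx.2.1]⟩
    · simp [par, h2, h3] at h1

lemma valid [DecidableEq ι] {E : Type*} [DecidableEq E] (g : E → SE ι) {x : ι → ι → ℝ}
    (hx : x ∈ MET ι) (J : Finset E) : ∀ (u v : ι) (γ : ZMod 2),
      (∀ s, ∑ e ∈ J, par s (g e) = γ + s u + s v) → fl γ (x u v) ≤ ∑ e ∈ J, len x (g e) := by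
  induction J using Finset.strongInduction with
  | H J ih =>
    intro u v γ h
    by_cases huv : u = v
    · subst huv
      rcases z2 γ with rfl | rfl
      · rw [fl_zero, hx.1]
        exact sum_nonneg fun e _ => fl_nonneg hx _ _ _
      · obtain ⟨e, he⟩ : J.Nonempty := by
          rcases J.eq_empty_or_nonempty with rfl | h'
          · simpa using h 0
          · exact h'
        have := ih _ (erase_ssubset he) (g e).1 (g e).2.1 (1 + (g e).2.2) fun s => by
          have h1 := h s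
          rw [← add_sum_erase _ _ he, par] at h1
          linear_combination h1 + self_z (s u) - self_z (g e).2.2 - self_z (s (g e).1) -
            self_z (s (g e).2.1)
        rw [← add_sum_erase _ _ he, len, hx.1, ← fl_fl] at *
        simp only [fl_one] at this ⊢
        linarith
    · obtain ⟨e, he, c, h1, h2⟩ := incident g J u (by simp [h, Ne.symm huv])
      have := ih _ (erase_ssubset he) c v ((g e).2.2 + γ) fun s => by
        have h3 := h s
        rw [← add_sum_erase _ _ he, h1] at h3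
        linear_combination h3 - self_z (g e).2.2 - self_z (s c)
      have h3 := fl_tri hx (g e).2.2 ((g e).2.2 + γ) u c v
      rw [← add_assoc, self_z, zero_add] at h3
      rw [← add_sum_erase _ _ he, h2 x hx]
      linarith

lemma valid_odd [DecidableEq ι] {E : Type*} [DecidableEq E] (g : E → SE ι) {x : ι → ι → ℝ}
    (hx : x ∈ MET ι) (J : Finset E) (h : ∀ s, ∑ e ∈ J, par s (g e) = 1) :
    1 ≤ ∑ e ∈ J, len x (g e) := by
  rcases J.eq_empty_or_nonempty with rfl | ⟨e, -⟩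
  · simpa using h 0
  · have := valid g hx J (g e).1 (g e).1 1 fun s => by rw [h, add_assoc, self_z, add_zero]
    simpa [hx.1] using this

lemma extend [Fintype ι] {E : Type*} [Fintype E] [DecidableEq E] (g : E → SE ι) (l : E → ℝ)
    (h0 : ∀ e, 0 ≤ l e) (h1 : ∀ C : Finset E, (∀ s, ∑ e ∈ C, par s (g e) = 1) → 1 ≤ ∑ e ∈ C, l e) :
    ∃ x ∈ MET ι, ∀ e, len x (g e) ≤ l e := by
  classical
  let Jn : ι × ZMod 2 → ι × ZMod 2 → Finset E → Prop := fun u v J =>
    ∀ s, ∑ e ∈ J, par s (g e) = u.2 + v.2 + s u.1 + s v.1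
  have hex : ∀ u v, ∃ d : ℝ, d ≤ 1 ∧ (∀ J, Jn u v J → d ≤ ∑ e ∈ J, l e) ∧
      (d = 1 ∨ ∃ J, Jn u v J ∧ d = ∑ e ∈ J, l e) := by
    intro u v
    rcases (univ.filter (Jn u v)).eq_empty_or_nonempty with h | h
    · exact ⟨1, le_rfl, fun J hJ => absurd (h ▸ mem_filter.mpr ⟨mem_univ J, hJ⟩)
        (notMem_empty J), Or.inl rfl⟩
    · obtain ⟨J, hJ, hm⟩ := exists_min_image _ (fun J => ∑ e ∈ J, l e) h
      refine ⟨min 1 (∑ e ∈ J, l e), min_le_left _ _, fun J' hJ' =>
        (min_le_right _ _).trans (hm J' (mem_filter.mpr ⟨mem_univ _, hJ'⟩)), ?_⟩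
      exact (min_choice _ _).imp id fun h => ⟨J, (mem_filter.mp hJ).2, h⟩
  choose D₀ d1 d2 d3 using hex
  have dnn : ∀ u v, 0 ≤ D₀ u v := fun u v => by
    rcases d3 u v with h | ⟨J, -, h⟩ <;> rw [h]
    exacts [zero_le_one, sum_nonneg fun e _ => h0 e]
  have dle : ∀ u v u' v', (∀ J, Jn u' v' J → Jn u v J) → D₀ u v ≤ D₀ u' v' := by
    intro u v u' v' h
    rcases d3 u' v' with h' | ⟨J, hJ, h'⟩ <;> rw [h']
    exacts [d1 u v, d2 u v J (h J hJ)]
  obtain ⟨D, a0, a1, a2, a3, a4⟩ := tight_span (fun u : ι × ZMod 2 => (u.1, u.2 + 1))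
    (fun u => by simp [add_assoc]) D₀
    (fun u => le_antisymm (by
      simpa using d2 u u ∅ fun s => by rw [sum_empty, self_z, zero_add, self_z]) (dnn u u))
    (fun u v => le_antisymm (dle _ _ _ _ fun J h s => by rw [h s]; ring)
      (dle _ _ _ _ fun J h s => by rw [h s]; ring))
    (fun u v w => by
      rcases d3 u v with h | ⟨J, hJ, h⟩
      · linarith [d1 u w, dnn v w]
      rcases d3 v w with h' | ⟨J', hJ', h'⟩
      · linarith [d1 u w, dnn u v]
      refine (d2 u w (symmDiff J J') fun s => ?_).trans ?_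
      · rw [sum_symmDiff2, hJ s, hJ' s]
        linear_combination self_z v.2 + self_z (s v.1)
      · rw [h, h', ← sum_union_inter]
        exact le_add_of_le_of_nonneg (sum_le_sum_of_subset_of_nonneg symmDiff_le_sup
          fun e _ _ => h0 e) (sum_nonneg fun e _ => h0 e))
    (fun u v => le_antisymm (dle _ _ _ _ fun J h s => by
      rw [h s]; linear_combination -two_z) (dle _ _ _ _ fun J h s => by
      rw [h s]; linear_combination two_z))
    (fun u => by
      rcases d3 u (u.1, u.2 + 1) with h | ⟨J, hJ, h⟩ <;> rw [h]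
      exact h1 J fun s => by rw [hJ s]; linear_combination self_z u.2 + self_z (s u.1)) d1
  refine ⟨fun i j => D (i, 0) (j, 0), ⟨fun i => a0 _, fun i j => a1 _ _, fun i j k => a2 _ _ _,
    fun i j k => ?_⟩, fun e => ?_⟩
  · linarith [a2 (j, 0) (i, 0 + 1) (k, 0), a4 (j, 0) (i, 0), a4 (k, 0) (i, 0), a1 (i, 0) (j, 0),
      a1 (i, 0) (k, 0), a1 (i, 0 + 1) (k, 0)]
  · have h2 : len (fun i j => D (i, 0) (j, 0)) (g e) = D ((g e).1, 0) ((g e).2.1, (g e).2.2) := by
      rw [len]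
      rcases z2 (g e).2.2 with h | h <;> rw [h]
      · simp
      · have := a4 ((g e).1, 0) ((g e).2.1, 0)
        simp only [zero_add] at this
        simp only [fl_one]
        linarith
    rw [h2]
    refine (a3 _ _).trans ?_
    simpa using d2 ((g e).1, 0) ((g e).2.1, (g e).2.2) {e} fun s => by simp [par]

lemma vertex {E S : Type*} [Fintype E] [DecidableEq E] (O : Finset E → Prop) (w : E → ℝ)
    (hw : ∀ e, 0 < w e) (τ : S → ℝ)
    (hpos : ∀ l : E → ℝ, (∀ e, 0 ≤ l e) → (∀ C, O C → 1 ≤ ∑ e ∈ C, l e) →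
      (∀ s, ∑ e, w e * l e < τ s) → ∀ e, 0 < l e)
    (l₀ : E → ℝ) (h0 : ∀ e, 0 ≤ l₀ e) (h1 : ∀ C, O C → 1 ≤ ∑ e ∈ C, l₀ e)
    (h2 : ∀ s, ∑ e, w e * l₀ e < τ s) :
    ∃ l : E → ℝ, (∀ e, 0 ≤ l e) ∧ (∀ C, O C → 1 ≤ ∑ e ∈ C, l e) ∧ (∀ s, ∑ e, w e * l e < τ s) ∧
      ∀ u : E → ℝ, (∀ C, (O C ∧ ∑ e ∈ C, l e = 1) → ∑ e ∈ C, u e = 0) → u = 0 := by
  classical
  let T : (E → ℝ) → Finset (Finset E) := fun l => univ.filter fun C => O C ∧ ∑ e ∈ C, l e = 1
  have hex : ∃ n, ∃ l : E → ℝ, (∀ e, 0 ≤ l e) ∧ (∀ C, O C → 1 ≤ ∑ e ∈ C, l e) ∧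
      (∀ s, ∑ e, w e * l e < τ s) ∧ (T l)ᶜ.card = n := ⟨_, l₀, h0, h1, h2, rfl⟩
  obtain ⟨l, a0, a1, a2, a3⟩ := Nat.find_spec hex
  have key : ∀ u : E → ℝ, (∀ C, (O C ∧ ∑ e ∈ C, l e = 1) → ∑ e ∈ C, u e = 0) →
      ∑ e, w e * u e ≤ 0 → ∀ e, 0 ≤ u e := by
    intro u hu hwu e₀
    by_contra hn
    obtain ⟨t, t0, t1, k, t2, t3⟩ := ratio (κ := E ⊕ Finset E)
      (Sum.elim l fun C => if O C then ∑ e ∈ C, l e - 1 else 0)
      (Sum.elim u fun C => if O C then ∑ e ∈ C, u e else 0)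
      (by
        rintro (e | C)
        · exact a0 e
        · simp only [Sum.elim_inr]
          split_ifs with h
          exacts [by linarith [a1 C h], le_rfl]) (Sum.inl e₀) (not_le.mp hn)
    have b0 : ∀ e, 0 ≤ (l + t • u) e := fun e => by simpa using t1 (Sum.inl e)
    have b : ∀ C : Finset E, ∑ e ∈ C, (l + t • u) e = ∑ e ∈ C, l e + t * ∑ e ∈ C, u e := fun C => by
      simp [sum_add_distrib, mul_sum]
    have b1 : ∀ C, O C → 1 ≤ ∑ e ∈ C, (l + t • u) e := fun C hC => by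
      have := t1 (Sum.inr C)
      simp only [Sum.elim_inr, hC, if_true] at this
      rw [b]; linarith
    have b2 : ∀ s, ∑ e, w e * (l + t • u) e < τ s := fun s => by
      have : ∑ e, w e * (l + t • u) e = ∑ e, w e * l e + t * ∑ e, w e * u e := by
        simp only [Pi.add_apply, Pi.smul_apply, smul_eq_mul, mul_sum, ← sum_add_distrib]
        exact sum_congr rfl fun e _ => by ring
      nlinarith [a2 s]
    rcases k with e | C
    · have := hpos _ b0 b1 b2 e
      simp only [Sum.elim_inl] at t3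
      simp only [Pi.add_apply, Pi.smul_apply, smul_eq_mul] at this
      linarith
    · have hC : O C := by by_contra h; simp [h] at t2
      simp only [Sum.elim_inr, hC, if_true] at t2 t3
      refine Nat.find_min hex (m := (T (l + t • u))ᶜ.card) ?_ ⟨_, b0, b1, b2, rfl⟩
      rw [← a3]
      refine card_lt_card (compl_ssubset_compl.mpr ⟨fun D hD => ?_, fun hsub => ?_⟩)
      · simp only [T, mem_filter, mem_univ, true_and] at hD ⊢
        exact ⟨hD.1, by rw [b, hu D hD, hD.2]; simp⟩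
      · have := hsub (x := C) (by
          simp only [T, mem_filter, mem_univ, true_and]
          exact ⟨hC, by rw [b]; linarith⟩)
        simp only [T, mem_filter, mem_univ, true_and] at this
        linarith [hu C this]
  have key2 : ∀ u : E → ℝ, (∀ C, (O C ∧ ∑ e ∈ C, l e = 1) → ∑ e ∈ C, u e = 0) →
      ∑ e, w e * u e ≤ 0 → u = 0 := by
    intro u hu hwu
    have b0 : ∀ e ∈ (univ : Finset E), 0 ≤ w e * u e := fun e _ =>
      mul_nonneg (hw e).le (key u hu hwu e)
    have b1 := (sum_eq_zero_iff_of_nonneg b0).mp (le_antisymm hwu (sum_nonneg b0))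
    exact funext fun e => (mul_eq_zero.mp (b1 e (mem_univ e))).resolve_left (hw e).ne'
  refine ⟨l, a0, a1, a2, fun u hu => ?_⟩
  rcases le_total (∑ e, w e * u e) 0 with h | h
  · exact key2 u hu h
  · exact neg_eq_zero.mp (key2 (-u) (fun C hC => by simp [hu C hC]) (by simpa using h))

end Pool.Agent.H373Z.Met
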