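import Pool.Agent.H373Z.Met.Main

set_option autoImplicit false

namespace Pool.Agent.H373Z.Met

open Finset Relation

variable {ι : Type} [Fintype ι] [DecidableEq ι]

/-- cut vector -/
noncomputable def cutv (S : Finset ι) : ι → ι → ℝ := fun i j => if (i ∈ S ↔ j ∈ S) then 0 else 1

/-- evaluation of a coordinate -/
noncomputable def ev (i j : ι) : (ι → ι → ℝ) →ₗ[ℝ] ℝ :=
  (LinearMap.proj j : (ι → ℝ) →ₗ[ℝ] ℝ) ∘ₗ (LinearMap.proj i : (ι → ι → ℝ) →ₗ[ℝ] (ι → ℝ))

omit [Fintype ι] [DecidableEq ι] in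
@[simp] lemma ev_apply (i j : ι) (x : ι → ι → ℝ) : ev i j x = x i j := rfl

/-- left sides of the inequalities -/
noncomputable def lhs (p : Fin 4 × ι × ι × ι) : (ι → ι → ℝ) →ₗ[ℝ] ℝ :=
  ![ev p.2.1 p.2.1, ev p.2.1 p.2.2.1 - ev p.2.2.1 p.2.1,
    ev p.2.1 p.2.2.1 - ev p.2.1 p.2.2.2 - ev p.2.2.2 p.2.2.1,
    ev p.2.1 p.2.2.1 + ev p.2.1 p.2.2.2 + ev p.2.2.1 p.2.2.2] p.1

/-- right sides of the inequalities -/
noncomputable def rhs (p : Fin 4 × ι × ι × ι) : ℝ := ![0, 0, 0, 2] p.1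

omit [Fintype ι] [DecidableEq ι] in
lemma MET_eq : MET ι = poly lhs rhs := by
  ext x
  constructor
  · rintro ⟨a, b, c, d⟩ ⟨t, i, j, k⟩
    fin_cases t <;> simp [lhs, rhs]
    · exact (a i).le
    · exact (b i j).le
    · linarith [c i j k]
    · exact d i j k
  · intro h
    have c : ∀ i j k, x i j ≤ x i k + x k j := fun i j k => by
      have := h (2, i, j, k)
      simp [lhs, rhs] at this
      linarith
    have b : ∀ i j, x i j ≤ x j i := fun i j => by simpa [lhs, rhs] using h (1, i, j, j)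
    refine ⟨fun i => le_antisymm (by simpa [lhs, rhs] using h (0, i, i, i))
      (by linarith [c i i i]), fun i j => le_antisymm (b i j) (b j i), c, fun i j k => ?_⟩
    simpa [lhs, rhs] using h (3, i, j, k)

omit [Fintype ι] [DecidableEq ι] in
lemma hrec (d : ι → ι → ℝ) (h : ∀ p, lhs p d ≤ 0) : d = 0 := by
  have c : ∀ i j k, d i j ≤ d i k + d k j := fun i j k => by
    have := h (2, i, j, k)
    simp [lhs] at this
    linarith
  have b : ∀ i j, d i j ≤ d j i := fun i j => by simpa [lhs] using h (1, i, j, j)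
  have e : ∀ i j k, d i j + d i k + d j k ≤ 0 := fun i j k => by simpa [lhs] using h (3, i, j, k)
  funext i j
  change d i j = 0
  linarith [c i i i, c i i j, b i j, b j i, e i i j]

omit [Fintype ι] in
lemma len_cutv (S : Finset ι) (p : SE ι) :
    len (cutv S) p = ind (par (fun i => if i ∈ S then 1 else 0) p) := by
  unfold len cutv par ind
  rcases z2 p.2.2 with h | h <;> by_cases a : p.1 ∈ S <;> by_cases b : p.2.1 ∈ S <;> simp [h, a, b]

omit [Fintype ι] in
lemma sep_fun {E : Type} [Fintype E] (g : E → SE ι) (w : E → ℝ) :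
    ∃ c : (ι → ι → ℝ) →ₗ[ℝ] ℝ, ∀ x, Sep g w x → ∀ S, c (cutv S) < c x := by
  let c : (ι → ι → ℝ) →ₗ[ℝ] ℝ := ∑ e, (if (g e).2.2 = 0 then -w e else w e) • ev (g e).1 (g e).2.1
  have hc : ∀ x, ∑ e, w e * len x (g e) = (∑ e, w e * fl (g e).2.2 0) - c x := fun x => by
    simp only [c, LinearMap.sum_apply, LinearMap.smul_apply, ev_apply, smul_eq_mul,
      ← sum_sub_distrib]
    refine sum_congr rfl fun e _ => ?_
    unfold len fl
    split_ifs <;> ring
  refine ⟨c, fun x hx S => ?_⟩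
  have := hx fun i => if i ∈ S then 1 else 0
  simp only [← len_cutv, hc] at this
  linarith

omit [Fintype ι] in
lemma R.lk {x y : ι → ι → ℝ} (h : R x y) : Lk (poly lhs rhs) cutv x y := by
  obtain ⟨a, b, E, _, g, w, -, c, d⟩ := h
  obtain ⟨f, hf⟩ := sep_fun g w
  exact ⟨MET_eq ▸ a, MET_eq ▸ b, f, fun S => ⟨hf x c S, hf y d S⟩⟩

omit [Fintype ι] in
lemma cutv_mem (S : Finset ι) : cutv S ∈ MET ι := by
  refine ⟨fun i => by simp [cutv], fun i j => by simp [cutv, iff_comm], fun i j k => ?_,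
    fun i j k => ?_⟩
  all_goals
    by_cases a : i ∈ S <;> by_cases b : j ∈ S <;> by_cases c : k ∈ S <;> simp [cutv, a, b, c] <;>
      norm_num

lemma vertex_R {v : ι → ι → ℝ} (hv : v ∈ (MET ι).extremePoints ℝ) (h : ¬ ∃ S, v = cutv S) :
    R v v := by
  rcases farkas (fun s (p : SE ι) => ind (par s p)) (len v) with ⟨w, a, b⟩ | ⟨μ, a, b, c⟩
  · exact ⟨hv.1, hv.1, _, inferInstance, id, w, a, b, b⟩
  exfalso
  let T : (ι → ZMod 2) → Finset ι := fun s => univ.filter fun i => s i = 1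
  have hT : ∀ s p, ind (par s p) = len (cutv (T s)) p := fun s p => by
    rw [len_cutv]
    congr 2
    funext i
    rcases z2 (s i) with h | h <;> simp [T, h]
  have h1 : v = ∑ s, μ s • cutv (T s) := by
    funext i j
    have c0 := c (i, j, 0)
    have c1 := c (i, j, 1)
    simp only [hT, len, fl_zero, fl_one, mul_sub, sum_sub_distrib, mul_one, b] at c0 c1
    simp only [Finset.sum_apply, Pi.smul_apply, smul_eq_mul]
    linarith
  have h2 : v ∈ convexHull ℝ (Set.range (cutv (ι := ι))) :=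
    h1 ▸ (convex_convexHull ℝ _).sum_mem (fun s _ => a s) b
      fun s _ => subset_convexHull ℝ _ ⟨_, rfl⟩
  have h3 : Convex ℝ (MET ι) := by
    rw [MET_eq]
    intro x hx y hy p q hp hq hpq k
    have h4 : rhs k = p * rhs k + q * rhs k := by rw [← add_mul, hpq, one_mul]
    simp only [map_add, map_smul, smul_eq_mul]
    nlinarith [hx k, hy k]
  obtain ⟨S, hS⟩ := extremePoints_convexHull_subset
    (inter_extremePoints_subset_extremePoints_of_subset
      (convexHull_min (by rintro _ ⟨S, rfl⟩; exact cutv_mem S) h3) ⟨h2, hv⟩)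
  exact h ⟨S, hS.symm⟩

omit [Fintype ι] [DecidableEq ι] in
lemma zero_ext : (0 : ι → ι → ℝ) ∈ (MET ι).extremePoints ℝ := by
  refine ⟨⟨fun _ => rfl, fun _ _ => rfl, fun _ _ _ => by simp, fun _ _ _ => by simp⟩, ?_⟩
  rintro x hx y hy ⟨p, q, hp, hq, -, h⟩
  funext i j
  have h1 := congrFun (congrFun h i) j
  have h2 := fl_nonneg hx 0 i j
  have h3 := fl_nonneg hy 0 i j
  simp only [Pi.add_apply, Pi.smul_apply, smul_eq_mul, Pi.zero_apply, fl_zero] at h1 h2 h3 ⊢
  nlinarith [mul_nonneg hq.le h3]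

theorem connected (h6 : 6 ≤ Fintype.card ι) : (ncGraph (MET ι) cutv).Connected := by
  obtain ⟨k⟩ : Nonempty ι := Fintype.card_pos_iff.mp (by omega)
  have h0 := zero_ext (ι := ι)
  have h1 := @vertex_R ι _ _
  rw [MET_eq] at h0 h1 ⊢
  obtain ⟨a, -, c, hc⟩ := (link h6 0 0 k fun _ _ => rfl).lk
  obtain ⟨v₀, -⟩ := exists_vertex (δ := cutv) hrec h0 c a fun S => (hc S).1
  have := Nonempty.intro v₀
  refine ⟨fun v v' => ?_⟩
  have a := h1 v.2.1 v.2.2
  have b := h1 v'.2.1 v'.2.2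
  obtain ⟨-, -, c, hc⟩ := a.lk
  obtain ⟨-, -, c', hc'⟩ := b.lk
  exact chain hrec (ReflTransGen.mono (fun _ _ h => h.lk) _ _ (total h6 a b)) v'.2.1.1 c c'
    (fun S => (hc S).1) (fun S => (hc' S).1) v v' (fun S => (hc S).1) (fun S => (hc' S).1)

end Pool.Agent.H373Z.Met
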