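import Pool.Agent.H373Z.Met.Poly

set_option autoImplicit false

namespace Pool.Agent.H373Z.Met

open Finset

lemma farkas {E S : Type*} [Fintype E] [Fintype S] (b : S → E → ℝ) (x : E → ℝ) :
    (∃ w : E → ℝ, (∀ e, 0 ≤ w e) ∧ ∀ s, ∑ e, w e * x e < ∑ e, w e * b s e) ∨
    ∃ μ : S → ℝ, (∀ s, 0 ≤ μ s) ∧ ∑ s, μ s = 1 ∧ ∀ e, ∑ s, μ s * b s e ≤ x e := by
  classical
  by_cases h : Disjoint (convexHull ℝ (Set.range b)) (Set.Iic x)
  · left
    obtain ⟨f, u, v, h1, h2, h3⟩ := geometric_hahn_banach_compact_closed (convex_convexHull ℝ _)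
      ((Set.finite_range b).isCompact_convexHull ℝ) (convex_Iic x) isClosed_Iic h
    have hf : ∀ y : E → ℝ, f y = ∑ e, f (Pi.single e 1) * y e := fun y => by
      conv_lhs => rw [pi_eq_sum_univ' y]
      simp [map_sum, mul_comm]
    refine ⟨fun e => -f (Pi.single e 1), fun e => ?_, fun s => ?_⟩
    · by_contra hn
      have h4 : 0 < f (Pi.single e 1) := by linarith [not_le.mp hn]
      have h5 := h3 x (le_refl x)
      have h6 := h3 (x - ((f x - v) / f (Pi.single e 1)) • Pi.single e 1) 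
        (Set.mem_Iic.mpr (sub_le_self _ (smul_nonneg (div_nonneg (sub_pos.mpr h5).le h4.le)
          (Pi.single_nonneg.mpr zero_le_one))))
      rw [map_sub, map_smul, smul_eq_mul, div_mul_cancel₀ _ h4.ne'] at h6
      linarith
    · have h4 := h1 (b s) (subset_convexHull ℝ _ ⟨s, rfl⟩)
      have h5 := h3 x (le_refl x)
      rw [hf] at h4 h5
      simp only [neg_mul, sum_neg_distrib]
      linarith
  · right
    obtain ⟨y, h1, h2⟩ := Set.not_disjoint_iff.mp h
    rw [convexHull_range_eq_exists_affineCombination] at h1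
    obtain ⟨T, μ, h3, h4, rfl⟩ := h1
    refine ⟨fun s => if s ∈ T then μ s else 0, fun s => ?_, by simpa using h4, fun e => ?_⟩
    · beta_reduce
      split_ifs with hs
      exacts [h3 s hs, le_rfl]
    · have := h2 e
      rw [affineCombination_eq_linear_combination _ _ _ h4] at this
      simpa [Finset.sum_apply, ite_mul] using this

lemma count_lemma {E ι : Type*} [Fintype E] [Fintype ι] [DecidableEq E] (A : ι → Finset E)
    (hc : Fintype.card ι = Fintype.card E) (hfull : ∀ i, A i ≠ univ)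
    (h : ∀ i j, j ∉ A i → (A i).card ≤ (univ.filter fun k => j ∈ A k).card) :
    (∀ j, ∃ i, j ∉ A i) ∧ ∀ i j, j ∉ A i → (A i).card = (univ.filter fun k => j ∈ A k).card := by
  classical
  set m := Fintype.card E
  let r : ι → ℝ := fun i => m - (A i).card
  let c : E → ℝ := fun j => m - (univ.filter fun k => j ∈ A k).card
  have hr : ∀ i, r i = ((A i)ᶜ.card : ℝ) := fun i => by
    simp only [r]
    rw [card_compl, Nat.cast_sub (card_le_univ _)]
  have hcc : ∀ j, c j = ((univ.filter fun k => j ∉ A k).card : ℝ) := fun j => by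
    simp only [c]
    have := card_filter_add_card_filter_not (s := univ) (fun k => j ∈ A k)
    rw [card_univ, hc] at this
    rw [← this]; push_cast; ring
  have hr0 : ∀ i, 0 < r i := fun i => by
    rw [hr]
    exact_mod_cast card_pos.mpr (nonempty_iff_ne_empty.mpr fun h => hfull i (by simpa using h))
  have hc0 : ∀ i j, j ∉ A i → 0 < c j := fun i j hij => by
    rw [hcc]
    exact_mod_cast card_pos.mpr ⟨i, by simpa using hij⟩
  have hle : ∀ i j, j ∉ A i → c j ≤ r i := fun i j hij => by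
    have : ((A i).card : ℝ) ≤ (univ.filter fun k => j ∈ A k).card := by exact_mod_cast h i j hij
    simp only [r, c]; linarith
  have h1 : ∑ p : ι × E, (if p.2 ∉ A p.1 then 1 / r p.1 else 0) = m := by
    rw [Fintype.sum_prod_type]
    have : ∀ i, ∑ j, (if j ∉ A i then 1 / r i else 0) = 1 := fun i => by
      rw [← sum_filter, sum_const, nsmul_eq_mul, show (univ.filter fun j => j ∉ A i) = (A i)ᶜ by
        ext; simp, ← hr, mul_one_div_cancel (hr0 i).ne']
    simp only [this]
    simp [hc]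
  have h2 : ∀ j, ∑ i, (if j ∉ A i then 1 / c j else 0) = if ∃ i, j ∉ A i then 1 else 0 := fun j => by
    rw [← sum_filter, sum_const, nsmul_eq_mul, ← hcc]
    split_ifs with h
    · obtain ⟨i, hi⟩ := h
      exact mul_one_div_cancel (hc0 i j hi).ne'
    · push Not at h
      rw [hcc]; simp [h]
  have h3 : ∀ p ∈ (univ : Finset (ι × E)), (if p.2 ∉ A p.1 then 1 / r p.1 else 0) ≤
      (if p.2 ∉ A p.1 then 1 / c p.2 else 0) := fun p _ => by
    split_ifs with hp
    · exact le_rfl
    · exact one_div_le_one_div_of_le (hc0 _ _ hp) (hle _ _ hp)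
  have h4 : ∑ p : ι × E, (if p.2 ∉ A p.1 then 1 / c p.2 else 0) =
      ∑ j, if ∃ i, j ∉ A i then (1 : ℝ) else 0 := by
    rw [Fintype.sum_prod_type, sum_comm]
    exact sum_congr rfl fun j _ => h2 j
  have h5 : ∀ j ∈ (univ : Finset E), (if ∃ i, j ∉ A i then (1 : ℝ) else 0) ≤ 1 := fun j _ => by
    split_ifs <;> norm_num
  have h6 := sum_le_sum h3
  have h7 := sum_le_sum h5
  have h8 : ∑ _j : E, (1 : ℝ) = m := by simp [m]
  refine ⟨fun j => ?_, fun i j hij => ?_⟩
  · have := (sum_eq_sum_iff_of_le h5).mp (by linarith) j (mem_univ _)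
    by_contra hn
    rw [if_neg hn] at this
    norm_num at this
  · have := (sum_eq_sum_iff_of_le h3).mp (by linarith) (i, j) (mem_univ _)
    simp only [hij, not_false_eq_true, if_true, one_div, inv_inj, r, c] at this
    exact_mod_cast (by linarith : ((A i).card : ℝ) = (univ.filter fun k => j ∈ A k).card)

lemma exists_square {E : Type*} [Fintype E] [DecidableEq E] (T : Finset E → Prop)
    (h : ∀ u : E → ℝ, (∀ C, T C → ∑ e ∈ C, u e = 0) → u = 0) :
    ∃ 𝓐 : Finset (Finset E), (∀ C ∈ 𝓐, T C) ∧ 𝓐.card = Fintype.card E ∧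
      ∀ u : E → ℝ, (∀ C ∈ 𝓐, ∑ e ∈ C, u e = 0) → u = 0 := by
  classical
  have hex : ∃ n, ∃ 𝓐 : Finset (Finset E), (∀ C ∈ 𝓐, T C) ∧
      (∀ u : E → ℝ, (∀ C ∈ 𝓐, ∑ e ∈ C, u e = 0) → u = 0) ∧ 𝓐.card = n :=
    ⟨_, univ.filter T, fun C hC => (mem_filter.mp hC).2,
      fun u hu => h u fun C hC => hu C (by simpa using hC), rfl⟩
  obtain ⟨𝓐, h1, h2, h3⟩ := Nat.find_spec hex
  let Φ : (E → ℝ) →ₗ[ℝ] (𝓐 → ℝ) := LinearMap.pi fun C => ∑ e ∈ C.1, LinearMap.proj e
  have hΦ : ∀ u C, Φ u C = ∑ e ∈ C.1, u e := fun u C => by simp [Φ]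
  have hinj : Function.Injective Φ := (injective_iff_map_eq_zero Φ).mpr fun u hu =>
    h2 u fun C hC => by rw [← hΦ u ⟨C, hC⟩, hu]; rfl
  have hsurj : Function.Surjective Φ := by
    have h4 : ∀ C : 𝓐, ∃ u, Φ u = Pi.single C 1 := by
      intro C
      by_contra hn
      refine Nat.find_min hex (m := (𝓐.erase C).card) (h3 ▸ card_erase_lt_of_mem C.2)
        ⟨𝓐.erase C, fun D hD => h1 D (mem_of_mem_erase hD), fun u hu => ?_, rfl⟩
      by_contra hu0
      have h5 : Φ u C ≠ 0 := fun h5 => hu0 (h2 u fun D hD => by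
        by_cases hDC : D = C
        · rw [hDC, ← hΦ, h5]
        · exact hu D (mem_erase.mpr ⟨hDC, hD⟩))
      refine hn ⟨(Φ u C)⁻¹ • u, funext fun D => ?_⟩
      rw [map_smul, Pi.smul_apply, smul_eq_mul]
      by_cases hDC : D = C
      · rw [hDC, inv_mul_cancel₀ h5, Pi.single_eq_same]
      · rw [Pi.single_eq_of_ne hDC, hΦ u D,
          hu D (mem_erase.mpr ⟨fun h => hDC (Subtype.ext h), D.2⟩), mul_zero]
    choose u hu using h4
    intro y
    refine ⟨∑ C, y C • u C, ?_⟩
    rw [map_sum]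
    simp only [map_smul, hu]
    exact (pi_eq_sum_univ' y).symm
  refine ⟨𝓐, h1, ?_, h2⟩
  have := (LinearEquiv.ofBijective Φ ⟨hinj, hsurj⟩).finrank_eq
  simpa using this.symm

/-- real indicator of a parity -/
noncomputable def ind (z : ZMod 2) : ℝ := if z = 1 then 1 else 0

lemma z2 (z : ZMod 2) : z = 0 ∨ z = 1 := by revert z; decide

lemma ind_nonneg (z : ZMod 2) : 0 ≤ ind z := by unfold ind; split_ifs <;> norm_num

lemma sum_ind {E : Type*} (C : Finset E) (p : E → ZMod 2) :
    ∑ e ∈ C, ind (p e) = (C.filter fun e => p e = 1).card := by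
  simp [ind]

lemma sum_par {E : Type*} (C : Finset E) (p : E → ZMod 2) :
    ∑ e ∈ C, p e = ((C.filter fun e => p e = 1).card : ZMod 2) := by
  rw [card_filter]
  push_cast
  exact sum_congr rfl fun e _ => by rcases z2 (p e) with h | h <;> simp [h]

lemma one_le_card {E : Type*} {C : Finset E} {p : E → ZMod 2} (h : ∑ e ∈ C, p e = 1) :
    1 ≤ (C.filter fun e => p e = 1).card := by
  rw [sum_par] at h
  by_contra hn
  rw [show (C.filter fun e => p e = 1).card = 0 by omega] at h
  simp at h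

lemma sum_symmDiff2 {E : Type*} [DecidableEq E] (C D : Finset E) (p : E → ZMod 2) :
    ∑ e ∈ symmDiff C D, p e = ∑ e ∈ C, p e + ∑ e ∈ D, p e := by
  rw [symmDiff_def, sup_eq_union, sum_union disjoint_sdiff_sdiff, ← sum_sdiff (inter_subset_left
    (s₁ := C) (s₂ := D)), ← sum_sdiff (inter_subset_right (s₁ := C) (s₂ := D)),
    sdiff_inter_self_left, sdiff_inter_self_right]
  generalize ∑ e ∈ C ∩ D, p e = z
  have : z + z = 0 := by revert z; decide
  linear_combination -this

lemma tight {E S : Type*} [Fintype S] {par : S → E → ZMod 2} {C : Finset E} {x : E → ℝ}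
    (hC : ∀ s, ∑ e ∈ C, par s e = 1) (hx : ∑ e ∈ C, x e = 1) {μ : S → ℝ} (h0 : ∀ s, 0 ≤ μ s)
    (h1 : ∑ s, μ s = 1) (h2 : ∀ e ∈ C, ∑ s, μ s * ind (par s e) ≤ x e) :
    (∀ e ∈ C, ∑ s, μ s * ind (par s e) = x e) ∧
      ∀ s, 0 < μ s → (C.filter fun e => par s e = 1).card = 1 := by
  have h3 : ∀ s ∈ (univ : Finset S), μ s * 1 ≤ μ s * ∑ e ∈ C, ind (par s e) := fun s _ => by
    rw [sum_ind]
    exact mul_le_mul_of_nonneg_left (by exact_mod_cast one_le_card (hC s)) (h0 s)
  have h4 : ∑ s, μ s * ∑ e ∈ C, ind (par s e) = ∑ e ∈ C, ∑ s, μ s * ind (par s e) := by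
    simp only [mul_sum]; exact sum_comm
  have h5 := sum_le_sum h3
  have h6 := sum_le_sum h2
  have h7 : ∑ s, μ s * 1 = 1 := by simpa using h1
  refine ⟨(sum_eq_sum_iff_of_le h2).mp (by linarith), fun s hs => ?_⟩
  have := (sum_eq_sum_iff_of_le h3).mp (by linarith) s (mem_univ _)
  rw [sum_ind] at this
  exact_mod_cast (mul_left_cancel₀ hs.ne' this).symm

lemma ind_eq_one {z : ZMod 2} (h : z = 1) : ind z = 1 := if_pos h

lemma ind_inj {z w : ZMod 2} (h : ind z = ind w) : z = w := by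
  rcases z2 z with rfl | rfl <;> rcases z2 w with rfl | rfl <;> simp_all [ind]

section blocks

variable {E S : Type*} [Fintype E] [DecidableEq E] {par : S → E → ZMod 2} {𝓐 : Finset (Finset E)}

/-- indicator of the cover `s` with the element `j` added -/
noncomputable def bv (par : S → E → ZMod 2) (j : E) (s : S) (e : E) : ℝ :=
  if e = j then 1 else ind (par s e)

omit [Fintype E] in
lemma bv_sum {j : E} {s : S} {C : Finset E} (hj : j ∉ C) :
    ∑ e ∈ C, bv par j s e = (C.filter fun e => par s e = 1).card := by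
  rw [← sum_ind]
  exact sum_congr rfl fun e he => if_neg (ne_of_mem_of_not_mem he hj)

lemma blocks (hinj : ∀ (u : E → ℝ) j, (∀ C ∈ 𝓐, ∑ e ∈ C, u e = u j) → u = 0) {j : E}
    {C : Finset E} (hC : C ∈ 𝓐) (hj : j ∉ C) (t : E → S) (ht : ∀ k ∈ C, par (t k) k = 1)
    (hg : ∀ k ∈ C, ∀ D ∈ 𝓐, j ∉ D → (D.filter fun e => par (t k) e = 1).card = 1) :
    C.card ≤ (univ.filter fun D : 𝓐 => j ∈ D.1).card ∧
      (C.card = (univ.filter fun D : 𝓐 => j ∈ D.1).card → ∀ v : E → ℝ,
        (∀ D ∈ 𝓐, j ∉ D → ∑ e ∈ D, v e = v j) → ∀ e, v e = ∑ k ∈ C, v k * bv par j (t k) e) := by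
  classical
  have hδ : ∀ k ∈ C, ∀ l ∈ C, bv par j (t k) l = if k = l then 1 else 0 := by
    intro k hk l hl
    rw [bv, if_neg (ne_of_mem_of_not_mem hl hj)]
    split_ifs with h
    · rw [← h, ind_eq_one (ht k hk)]
    · refine if_neg fun h' => h ?_
      exact card_le_one.mp (hg k hk C hC hj).le k (mem_filter.mpr ⟨hk, ht k hk⟩) l
        (mem_filter.mpr ⟨hl, h'⟩)
  let Λ : (C → ℝ) →ₗ[ℝ] (E → ℝ) := ∑ k : C, (LinearMap.proj k).smulRight (bv par j (t k))
  have hΛ : ∀ l e, Λ l e = ∑ k : C, l k * bv par j (t k) e := fun l e => by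
    simp [Λ, Finset.sum_apply]
  have hΛ1 : ∀ l (k : C), Λ l k = l k := fun l k => by
    rw [hΛ, sum_eq_single k (fun k' _ h => by
      rw [hδ _ k'.2 _ k.2, if_neg fun h' => h (Subtype.ext h'), mul_zero]) (by simp),
      hδ _ k.2 _ k.2, if_pos rfl, mul_one]
  have hΛ2 : ∀ l, ∀ D ∈ 𝓐, j ∉ D → ∑ e ∈ D, Λ l e = Λ l j := fun l D hD hjD => by
    simp only [hΛ]
    rw [sum_comm]
    refine sum_congr rfl fun k _ => ?_
    rw [← mul_sum, bv_sum hjD, hg k k.2 D hD hjD]
    simp [bv]
  let Δ : (E → ℝ) →ₗ[ℝ] ({D : 𝓐 // j ∈ D.1} → ℝ) :=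
    LinearMap.pi fun D => ∑ e ∈ D.1.1, LinearMap.proj e - LinearMap.proj j
  have hΔ : ∀ v D, Δ v D = ∑ e ∈ D.1.1, v e - v j := fun v D => by simp [Δ]
  have hker : ∀ v : E → ℝ, (∀ D ∈ 𝓐, j ∉ D → ∑ e ∈ D, v e = v j) → Δ v = 0 → v = 0 :=
    fun v h1 h2 => hinj v j fun D hD => by
      by_cases h : j ∈ D
      · have := congrFun h2 ⟨⟨D, hD⟩, h⟩
        rw [hΔ] at this
        exact sub_eq_zero.mp this
      · exact h1 D hD h
  have hi : Function.Injective (Δ ∘ₗ Λ) := (injective_iff_map_eq_zero _).mpr fun l hl => by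
    have := hker _ (hΛ2 l) hl
    exact funext fun k => by rw [← hΛ1 l k, show Λ l = 0 from this]; rfl
  have hcard : Fintype.card {D : 𝓐 // j ∈ D.1} = (univ.filter fun D : 𝓐 => j ∈ D.1).card :=
    Fintype.card_subtype _
  refine ⟨?_, fun h v hv e => ?_⟩
  · have := LinearMap.finrank_le_finrank_of_injective hi
    simpa [hcard] using this
  · have hs : Function.Surjective (Δ ∘ₗ Λ) :=
      (LinearMap.injective_iff_surjective_of_finrank_eq_finrank (by simp [hcard, h])).mp hi
    obtain ⟨l, hl⟩ := hs (Δ v)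
    have h1 : v - Λ l = 0 := hker _ (fun D hD hjD => by
      simp only [Pi.sub_apply, sum_sub_distrib, hv D hD hjD, hΛ2 l D hD hjD]) (by
      rw [map_sub, ← hl]; simp)
    have h2 : v = Λ l := sub_eq_zero.mp h1
    rw [← sum_coe_sort C]
    conv_lhs => rw [h2, hΛ]
    exact sum_congr rfl fun k _ => by rw [← hΛ1 l k, ← h2]

end blocks

theorem lehman {E S : Type*} [Fintype E] [DecidableEq E] [Fintype S] [Nonempty S]
    (par : S → E → ZMod 2) (x : E → ℝ) (h0 : ∀ e, 0 < x e) (h1 : ∀ e, x e < 1)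
    (h2 : ∀ C : Finset E, (∀ s, ∑ e ∈ C, par s e = 1) → 1 ≤ ∑ e ∈ C, x e)
    (h3 : ∀ u : E → ℝ, (∀ C : Finset E, ((∀ s, ∑ e ∈ C, par s e = 1) ∧ ∑ e ∈ C, x e = 1) →
      ∑ e ∈ C, u e = 0) → u = 0)
    (h4 : ∀ j, ∃ μ : S → ℝ, (∀ s, 0 ≤ μ s) ∧ ∑ s, μ s = 1 ∧
      ∀ e, e ≠ j → ∑ s, μ s * ind (par s e) ≤ x e)
    (h5 : ∀ μ : S → ℝ, (∀ s, 0 ≤ μ s) → ∑ s, μ s = 1 → ¬ ∀ e, ∑ s, μ s * ind (par s e) ≤ x e) :
    ∃ r : ℕ, (∀ e, x e * r = 1) ∧
      ((r = 3 ∧ ∃ s₁ s₂ s₃, ∀ e, par s₁ e + par s₂ e + par s₃ e = 1) ∨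
      ∃ (j : E) (C : Finset E), (∀ s, ∑ e ∈ C, par s e = 1) ∧ C.card = r ∧ j ∈ C ∧
        ∀ e₂ ∈ C, e₂ ≠ j → ∀ μ : S → ℝ, (∀ s, 0 ≤ μ s) → ∑ s, μ s = 1 →
          (∀ e, e ≠ j → ∑ s, μ s * ind (par s e) ≤ x e) →
          2 < r * ∑ s, μ s * ind (par s j + par s e₂)) := by
  classical
  obtain ⟨𝓐, hT, hcard, hinj0⟩ := exists_square _ h3
  have hinj : ∀ (u : E → ℝ) j, (∀ C ∈ 𝓐, ∑ e ∈ C, u e = u j) → u = 0 := by
    intro u j hu
    have h6 := hinj0 (u - u j • x) fun C hC => by
      simp only [Pi.sub_apply, Pi.smul_apply, smul_eq_mul, sum_sub_distrib, ← mul_sum,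
        (hT C hC).2, hu C hC, mul_one, sub_self]
    have h7 := congrFun h6 j
    simp only [Pi.sub_apply, Pi.smul_apply, smul_eq_mul, Pi.zero_apply] at h7
    have h8 : u j = 0 := by
      have : u j * (1 - x j) = 0 := by linarith
      exact (mul_eq_zero.mp this).resolve_right (by linarith [h1 j])
    simpa [h8] using h6
  obtain ⟨j⟩ : Nonempty E := by
    by_contra hn
    obtain ⟨s⟩ := ‹Nonempty S›
    exact h5 (Pi.single s 1) (fun s' => by rw [Pi.single_apply]; split_ifs <;> norm_num) (by simp)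
      fun e => (hn ⟨e⟩).elim
  have hsub : ∀ D C : Finset E, D ⊆ C → ∑ e ∈ C, x e ≤ ∑ e ∈ D, x e → D = C := by
    intro D C h h'
    by_contra hn
    obtain ⟨e, he, he'⟩ := exists_of_ssubset (h.ssubset_of_ne hn)
    linarith [sum_lt_sum_of_subset h he he' (h0 e) fun k _ _ => (h0 k).le]
  have hpos : ∀ C ∈ 𝓐, 2 ≤ C.card := by
    intro C hC
    by_contra hn
    have h6 := (hT C hC).2
    rcases C.eq_empty_or_nonempty with rfl | ⟨e, he⟩
    · simp at h6
    · rw [eq_singleton_iff_unique_mem.mpr ⟨he, fun k hk => card_le_one.mp (by omega) k hk e he⟩,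
        sum_singleton] at h6
      linarith [h1 e]
  have hfull : ∀ C ∈ 𝓐, C ≠ univ := by
    rintro C hC rfl
    have h6 : 𝓐 ⊆ {univ} := fun D hD => mem_singleton.mpr (hsub D _ (subset_univ _) (by
      rw [(hT D hD).2, (hT _ hC).2]))
    have h7 := card_le_card h6
    have h8 := hpos _ hC
    rw [card_univ] at h8
    rw [card_singleton] at h7
    omega
  have hblk : ∀ j, ∀ C ∈ 𝓐, j ∉ C → ∃ t : E → S, (∀ k ∈ C, par (t k) k = 1) ∧
      ∀ k ∈ C, ∀ D ∈ 𝓐, j ∉ D → (D.filter fun e => par (t k) e = 1).card = 1 := by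
    intro j C hC hj
    obtain ⟨μ, a0, a1, a2⟩ := h4 j
    have h6 : ∀ k ∈ C, ∃ s, 0 < μ s ∧ par s k = 1 := by
      intro k hk
      have h7 := (tight (hT C hC).1 (hT C hC).2 a0 a1
        (fun e he => a2 e fun h => hj (h ▸ he))).1 k hk
      by_contra hn
      push Not at hn
      rw [sum_eq_zero fun s _ => by
        rcases (a0 s).eq_or_lt with h | h
        · rw [← h, zero_mul]
        · rw [ind, if_neg (hn s h), mul_zero]] at h7
      linarith [h0 k]
    choose! t ht using h6
    exact ⟨t, fun k hk => (ht k hk).2, fun k hk D hD hjD => (tight (hT D hD).1 (hT D hD).2 a0 a1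
      (fun e he => a2 e fun h => hjD (h ▸ he))).2 _ (ht k hk).1⟩
  obtain ⟨hz, hreg⟩ := count_lemma (fun C : 𝓐 => C.1) (by simpa using hcard)
    (fun C => hfull _ C.2) (fun C j hj => by
      obtain ⟨t, a, b⟩ := hblk j C C.2 hj
      exact (blocks hinj C.2 hj t a b).1)
  have hsame : ∀ C ∈ 𝓐, ∀ D ∈ 𝓐, C.card = D.card := by
    have a1 : ∀ C ∈ 𝓐, ∀ D ∈ 𝓐, C.card ≠ D.card → ∀ e, e ∉ C → e ∈ D := by
      intro C hC D hD hne e he
      by_contra he'
      exact hne ((hreg ⟨C, hC⟩ e he).trans (hreg ⟨D, hD⟩ e he').symm)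
    have a2 : ∀ C ∈ 𝓐, ∀ C' ∈ 𝓐, ∀ D ∈ 𝓐, C.card ≠ D.card → C'.card ≠ D.card → C = C' := by
      intro C hC C' hC' D hD n1 n2
      have b1 : symmDiff C C' ⊆ D := fun e he => by
        rcases mem_symmDiff.mp he with h | h
        exacts [a1 C' hC' D hD n2 e h.2, a1 C hC D hD n1 e h.2]
      have b2 := h2 (symmDiff (symmDiff C C') D) fun s => by
        rw [sum_symmDiff2, sum_symmDiff2, (hT C hC).1, (hT C' hC').1, (hT D hD).1]; decide
      have b3 := hsub (symmDiff (symmDiff C C') D) D (fun e he => by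
        rcases mem_symmDiff.mp he with h | h
        exacts [b1 h.1, h.1]) (by rw [(hT D hD).2]; exact b2)
      exact symmDiff_eq_bot.mp (symmDiff_eq_right.mp b3)
    intro C hC D hD
    by_contra hne
    have a3 : 𝓐 ⊆ {C, D} := fun F hF => by
      by_cases h : F.card = D.card
      · rw [a2 F hF D hD C hC (by omega) (Ne.symm hne)]; simp
      · rw [a2 F hF C hC D hD h hne]; simp
    have a4 := (card_le_card a3).trans card_le_two
    have a5 := card_lt_card ((subset_univ C).ssubset_of_ne (hfull C hC))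
    have a6 := hpos C hC
    rw [card_univ] at a5
    omega
  obtain ⟨⟨C, hC⟩, hj⟩ := hz j
  change j ∉ C at hj
  have hx : ∀ e, x e * C.card = 1 := by
    have := hinj0 (fun e => x e * C.card - 1) fun D hD => by
      rw [sum_sub_distrib, ← sum_mul, (hT D hD).2, hsame C hC D hD]; simp
    exact fun e => sub_eq_zero.mp (congrFun this e)
  refine ⟨C.card, hx, ?_⟩
  obtain ⟨t, ht1, ht2⟩ := hblk j C hC hj
  have hspan := (blocks hinj hC hj t ht1 ht2).2 (hreg ⟨C, hC⟩ j hj)
  have hr0 : (0 : ℝ) < C.card := by exact_mod_cast lt_of_lt_of_le two_pos (hpos C hC)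
  have hpart : ∀ e, e ≠ j → (C.filter fun k => par (t k) e = 1).card = 1 := by
    intro e he
    have h6 := hspan (fun e => if e = j then C.card else 1) (fun D hD hjD => by
      rw [sum_congr rfl (g := fun _ => (1 : ℝ)) fun k hk => if_neg (ne_of_mem_of_not_mem hk hjD)]
      simp [hsame C hC D hD]) e
    rw [if_neg he, sum_congr rfl (g := fun k => ind (par (t k) e)) fun k hk => by
      rw [if_neg (ne_of_mem_of_not_mem hk hj), one_mul, bv, if_neg he], sum_ind] at h6
    exact_mod_cast h6.symm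
  obtain ⟨D₀, hD₀, hjD₀⟩ : ∃ D ∈ 𝓐, j ∈ D := by
    obtain ⟨D, hD⟩ := card_pos.mp (lt_of_lt_of_le two_pos ((hpos C hC).trans
      (hreg ⟨C, hC⟩ j hj).le))
    exact ⟨D, D.2, (mem_filter.mp hD).2⟩
  have hτ : ∀ e, ∑ k ∈ C, par (t k) e = 1 := by
    have h6 : ∀ e, e ≠ j → ∑ k ∈ C, par (t k) e = 1 := fun e he => by
      rw [sum_par, hpart e he]; simp
    intro e
    by_cases he : e = j
    · have h7 : ∑ k ∈ C, ∑ e ∈ D₀, par (t k) e = D₀.card := by
        simp [(hT D₀ hD₀).1, hsame C hC D₀ hD₀]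
      rw [sum_comm, ← add_sum_erase _ _ hjD₀, sum_congr rfl fun e he => h6 e (ne_of_mem_erase he),
        ← card_erase_add_one hjD₀] at h7
      simp only [sum_const, nsmul_eq_mul, mul_one, Nat.cast_add, Nat.cast_one] at h7
      rw [he]
      linear_combination h7
    · exact h6 e he
  set Q := C.filter fun k => par (t k) j = 1 with hQ
  have hq3 : 3 ≤ Q.card := by
    have h6 := hτ j
    rw [sum_par, ← hQ] at h6
    have h7 : Q.card ≠ 2 := fun h => by rw [h] at h6; revert h6; decide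
    have h8 : ¬ Q.card ≤ 1 := fun h => by
      refine h5 (fun s => ∑ k ∈ C, if t k = s then (C.card : ℝ)⁻¹ else 0)
        (fun s => sum_nonneg fun k _ => by split_ifs <;> positivity) ?_ fun e => ?_
      · rw [sum_comm]; simp [hr0.ne']
      · simp only [sum_mul]
        rw [sum_comm]
        simp only [ite_mul, zero_mul, sum_ite_eq, mem_univ, if_true]
        rw [← mul_sum, sum_ind, inv_mul_le_iff₀ hr0, mul_comm, hx]
        by_cases he : e = j
        · rw [he]; exact_mod_cast h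
        · rw [hpart e he]; simp
    omega
  have hqr : Q.card ≤ C.card := card_filter_le _ _
  rcases (hq3.trans hqr).eq_or_lt with h | h
  · left
    obtain ⟨a, b, c, n1, n2, n3, rfl⟩ := card_eq_three.mp h.symm
    refine ⟨h.symm, t a, t b, t c, fun e => ?_⟩
    have := hτ e
    rwa [sum_insert (by simp [n1, n2]), sum_pair n3, ← add_assoc] at this
  right
  obtain ⟨D, hD, hjD, hD3⟩ : ∃ D ∈ 𝓐, j ∈ D ∧ ∀ e₂ ∈ D, e₂ ≠ j →
      3 ≤ (Q.filter fun k => ¬ par (t k) e₂ = 1).card := by
    rcases hq3.eq_or_lt with hq | hq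
    · by_contra hn
      push Not at hn
      obtain ⟨k₀, hk₀, hk₀'⟩ := exists_mem_notMem_of_card_lt_card (hq ▸ h : Q.card < C.card)
      have h6 := hinj (fun e => ∑ k ∈ Q, bv par j (t k) e - 2 * bv par j (t k₀) e) j fun F hF => by
        rw [sum_sub_distrib, sum_comm, ← mul_sum]
        by_cases hjF : j ∈ F
        · let n : E → ℕ := fun k => ((F.erase j).filter fun e => par (t k) e = 1).card
          have b1 : ∀ k, ∑ e ∈ F, bv par j (t k) e = 1 + n k := fun k => by
            rw [← add_sum_erase _ _ hjF, bv_sum (notMem_erase j F)]; simp [bv, n]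
          have b2 : ∀ k, (n k : ZMod 2) = 1 + par (t k) j := fun k => by
            have := (hT F hF).1 (t k)
            rw [← add_sum_erase _ _ hjF, sum_par] at this
            have h2 : par (t k) j + par (t k) j = 0 := by
              generalize par (t k) j = z; revert z; decide
            linear_combination this - h2
          have b3 : ∑ k ∈ C, n k + 1 = C.card := by
            simp only [n, card_filter]
            rw [sum_comm, hsame C hC F hF, ← card_erase_add_one hjF, card_eq_sum_ones]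
            congr 1
            exact sum_congr rfl fun e he => by
              rw [← card_filter, hpart e (ne_of_mem_erase he)]
          have b4 : ∀ k ∈ C \ Q, 1 ≤ n k := fun k hk => by
            by_contra hn
            have := b2 k
            rw [show n k = 0 by omega, (z2 _).resolve_right fun h =>
              (mem_sdiff.mp hk).2 (mem_filter.mpr ⟨(mem_sdiff.mp hk).1, h⟩)] at this
            simp at this
          have b5 : 2 ≤ ∑ k ∈ Q, n k := by
            obtain ⟨e, he, hej, he'⟩ := hn F hF hjF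
            obtain ⟨k, hk, hk'⟩ : ∃ k ∈ Q, par (t k) e = 1 := by
              by_contra hn'
              push Not at hn'
              rw [filter_true_of_mem hn'] at he'
              omega
            have c1 : 1 ≤ n k := card_pos.mpr ⟨e, mem_filter.mpr ⟨mem_erase.mpr ⟨hej, he⟩, hk'⟩⟩
            have c2 : n k ≠ 1 := fun h => by
              have := b2 k
              rw [h, (mem_filter.mp hk).2] at this
              revert this; decide
            exact le_trans (by omega) (single_le_sum (f := n) (fun _ _ => Nat.zero_le _) hk)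
          have b6 := sum_sdiff (f := n) (filter_subset (fun k => par (t k) j = 1) C)
          rw [← hQ] at b6
          have b7 := sum_le_sum b4
          have b8 := card_sdiff_add_card_eq_card (filter_subset (fun k => par (t k) j = 1) C)
          rw [← hQ] at b8
          rw [← card_eq_sum_ones] at b7
          have b9 := (sum_eq_sum_iff_of_le b4).mp (by rw [← card_eq_sum_ones]; omega) k₀
            (mem_sdiff.mpr ⟨hk₀, hk₀'⟩)
          have b10 : ∑ k ∈ Q, n k = 2 := by omega
          simp only [b1, sum_add_distrib, ← Nat.cast_sum, b10, ← b9]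
          simp [bv]
          ring
        · rw [sum_congr rfl fun k hk => by
            rw [bv_sum hjF, ht2 k (mem_filter.mp hk).1 F hF hjF], bv_sum hjF, ht2 k₀ hk₀ F hF hjF]
          simp [bv]
      have h7 := congrFun h6 j
      simp [bv, ← hq] at h7
      norm_num at h7
    · refine ⟨D₀, hD₀, hjD₀, fun e _ he => ?_⟩
      have b1 := card_filter_add_card_filter_not (s := Q) (fun k => par (t k) e = 1)
      have b2 : (Q.filter fun k => par (t k) e = 1).card ≤ 1 :=
        (card_le_card (filter_subset_filter _ (filter_subset _ _))).trans (hpart e he).le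
      omega
  refine ⟨j, D, (hT D hD).1, hsame D hD C hC, hjD, fun e₂ he₂ hne μ a0 a1 a2 => ?_⟩
  have h6 : ∀ s, μ s * ind (par s j + par s e₂) =
      ∑ k ∈ C, μ s * ind (par s k) * ind (par (t k) j + par (t k) e₂) := by
    intro s
    rcases (a0 s).eq_or_lt with h | h
    · simp [← h]
    have b1 : ∀ F ∈ 𝓐, j ∉ F → (F.filter fun e => par s e = 1).card = 1 := fun F hF hjF =>
      (tight (hT F hF).1 (hT F hF).2 a0 a1 (fun e he => a2 e fun h => hjF (h ▸ he))).2 _ h
    obtain ⟨k, hk⟩ := card_eq_one.mp (b1 C hC hj)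
    have hk1 : k ∈ C ∧ par s k = 1 := mem_filter.mp (hk ▸ mem_singleton_self k)
    have hk2 : ∀ l ∈ C, l ≠ k → ind (par s l) = 0 := fun l hl hne => if_neg fun h' =>
      hne (mem_singleton.mp (hk ▸ mem_filter.mpr ⟨hl, h'⟩))
    have b2 : ∀ e, e ≠ j → par s e = par (t k) e := fun e he => by
      have := hspan (bv par j s) (fun F hF hjF => by rw [bv_sum hjF, b1 F hF hjF]; simp [bv]) e
      rw [sum_eq_single k (fun l hl hne => by
        rw [bv, if_neg (ne_of_mem_of_not_mem hl hj), hk2 l hl hne, zero_mul]) (fun h => (h hk1.1).elim),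
        bv, bv, bv, if_neg he, if_neg he, if_neg (ne_of_mem_of_not_mem hk1.1 hj), ind_eq_one hk1.2,
        one_mul] at this
      exact ind_inj this
    have b3 : par s j = par (t k) j := by
      have c1 := (hT D hD).1 s
      have c2 := (hT D hD).1 (t k)
      rw [← add_sum_erase _ _ hjD] at c1 c2
      rw [sum_congr rfl fun e he => b2 e (ne_of_mem_erase he)] at c1
      linear_combination c1 - c2
    rw [sum_eq_single k (fun l hl hne => by rw [hk2 l hl hne, mul_zero, zero_mul])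
      (fun h => (h hk1.1).elim), ind_eq_one hk1.2, mul_one, b3, b2 e₂ hne]
  simp only [h6]
  rw [sum_comm, mul_sum, sum_congr rfl (g := fun k => ind (par (t k) j + par (t k) e₂))
    fun k hk => by
      rw [← sum_mul, (tight (hT C hC).1 (hT C hC).2 a0 a1
        (fun e he => a2 e fun h => hj (h ▸ he))).1 k hk, ← mul_assoc, mul_comm _ (x k), hx,
        one_mul], sum_ind]
  have h7 : 3 ≤ (C.filter fun k => par (t k) j + par (t k) e₂ = 1).card := by
    refine (hD3 e₂ he₂ hne).trans (card_le_card fun k hk => ?_)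
    obtain ⟨b1, b2⟩ := mem_filter.mp hk
    obtain ⟨b3, b4⟩ := mem_filter.mp b1
    exact mem_filter.mpr ⟨b3, by rw [b4, (z2 _).resolve_right b2, add_zero]⟩
  have h8 : (3 : ℝ) ≤ (C.filter fun k => par (t k) j + par (t k) e₂ = 1).card := by
    exact_mod_cast h7
  linarith

end Pool.Agent.H373Z.Met
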