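import Pool.Agent.H373Z.Met.Ext

set_option autoImplicit false

namespace Pool.Agent.H373Z.Met

open Finset Relation

variable {ι : Type}

/-- the weights `w` on the signed pairs `g` cut `x` off from all cuts -/
def Sep {E : Type} [Fintype E] (g : E → SE ι) (w : E → ℝ) (x : ι → ι → ℝ) : Prop :=
  ∀ s : ι → ZMod 2, ∑ e, w e * len x (g e) < ∑ e, w e * ind (par s (g e))

/-- two points of the metric polytope violating a common valid inequality of the cut polytope -/
def R (x y : ι → ι → ℝ) : Prop := x ∈ MET ι ∧ y ∈ MET ι ∧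
  ∃ (E : Type) (_ : Fintype E) (g : E → SE ι) (w : E → ℝ), (∀ e, 0 ≤ w e) ∧ Sep g w x ∧ Sep g w y

lemma R.symm {x y : ι → ι → ℝ} (h : R x y) : R y x := by
  obtain ⟨a, b, E, _, g, w, h1, h2, h3⟩ := h
  exact ⟨b, a, E, _, g, w, h1, h3, h2⟩

lemma R.right {x y : ι → ι → ℝ} (h : R x y) : R y y := by
  obtain ⟨-, b, E, _, g, w, h1, -, h3⟩ := h
  exact ⟨b, b, E, _, g, w, h1, h3, h3⟩

lemma R.chain {x y : ι → ι → ℝ} (hx : R x x) (h : ReflTransGen R x y) : R y y := by
  induction h with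
  | refl => exact hx
  | tail _ h _ => exact h.right

/-- switchings of the point with all distances `2 / 3` -/
noncomputable def Y [DecidableEq ι] (τ : ι → ZMod 2) (i j : ι) : ℝ :=
  if i = j then 0 else fl (τ i + τ j) (2 / 3)

lemma Y_mem [DecidableEq ι] (τ : ι → ZMod 2) : Y τ ∈ MET ι := by
  refine ⟨fun i => by simp [Y], fun i j => by simp [Y, eq_comm, add_comm], fun i j k => ?_,
    fun i j k => ?_⟩
  all_goals
    unfold Y
    rcases z2 (τ i) with a | a <;> rcases z2 (τ j) with b | b <;> rcases z2 (τ k) with c | c <;>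
      split_ifs <;> simp_all <;> norm_num

lemma len_Y [DecidableEq ι] {τ : ι → ZMod 2} {p : SE ι} (h : p.1 ≠ p.2.1) (h' : par τ p = 1) :
    len (Y τ) p = 1 / 3 := by
  rw [len, Y, if_neg h, fl_fl, ← add_assoc, ← par, h', fl_one]; norm_num

lemma drop {E : Type} [Fintype E] [DecidableEq E] {g : E → SE ι} {w : E → ℝ} {x : ι → ι → ℝ}
    (h : Sep g w x) (j : E) (hj : ∀ s, w j * ind (par s (g j)) ≤ w j * len x (g j)) :
    Sep (fun e : {e // e ≠ j} => g e) (fun e => w e) x := by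
  intro s
  have h1 := h s
  rw [Fintype.sum_eq_add_sum_subtype_ne _ j, Fintype.sum_eq_add_sum_subtype_ne _ j] at h1
  linarith [hj s]

lemma step [Fintype ι] [DecidableEq ι] {y₀ : ι → ι → ℝ}
    (h01 : ∀ y, ReflTransGen R y₀ y → y ∈ MET ι → ∀ i j, i ≠ j → ∀ β, 0 < fl β (y i j))
    {E : Type} [Fintype E] [DecidableEq E]
    (hmin : ∀ (E' : Type) [Fintype E'] (g : E' → SE ι) (w : E' → ℝ) y, ReflTransGen R y₀ y →
      y ∈ MET ι → (∀ e, 0 ≤ w e) → Sep g w y → Fintype.card E ≤ Fintype.card E')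
    (g : E → SE ι) (w : E → ℝ) (y : ι → ι → ℝ) (hy : ReflTransGen R y₀ y) (hy' : y ∈ MET ι)
    (hw : ∀ e, 0 ≤ w e) (hs : Sep g w y) :
    (∃ τ, ReflTransGen R y₀ (Y τ)) ∨ ∃ (g' : E → SE ι) (w' : E → ℝ) (y' : ι → ι → ℝ),
      ReflTransGen R y₀ y' ∧ y' ∈ MET ι ∧ (∀ e, 0 ≤ w' e) ∧ Sep g' w' y' ∧
      ∃ C' : Finset E, (∀ s, ∑ e ∈ C', par s (g' e) = 1) ∧
        ∀ C : Finset E, (∀ s, ∑ e ∈ C, par s (g e) = 1) → C'.card < C.card := by
  have hdrop : ∀ (j : E) (w' : {e // e ≠ j} → ℝ) y', ReflTransGen R y₀ y' → y' ∈ MET ι →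
      (∀ e, 0 ≤ w' e) → ¬ Sep (fun e : {e // e ≠ j} => g e) w' y' := fun j w' y' a b c d =>
    absurd (hmin _ _ _ _ a b c d) (not_le.mpr (Fintype.card_subtype_lt (x := j) (by simp)))
  have hw' : ∀ e, 0 < w e := fun j => lt_of_le_of_ne (hw j) fun h =>
    hdrop j _ y hy hy' (fun e => hw e) (drop hs j fun s => by simp [← h])
  have hloop : ∀ e, (g e).1 ≠ (g e).2.1 := fun j h =>
    hdrop j _ y hy hy' (fun e => hw e) (drop hs j fun s => by
      rw [par, len, h, hy'.1, add_assoc, self_z, add_zero]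
      rcases z2 (g j).2.2 with h | h <;> simp [h, ind])
  have hlift : ∀ l : E → ℝ, (∀ e, 0 ≤ l e) →
      (∀ C : Finset E, (∀ s, ∑ e ∈ C, par s (g e) = 1) → 1 ≤ ∑ e ∈ C, l e) →
      (∀ s, ∑ e, w e * l e < ∑ e, w e * ind (par s (g e))) →
      ∃ v ∈ MET ι, ReflTransGen R y₀ v ∧ Sep g w v ∧ ∀ e, len v (g e) ≤ l e := by
    intro l a b c
    obtain ⟨v, hv, hv'⟩ := extend g l a b
    have d : Sep g w v := fun s => lt_of_le_of_lt
      (sum_le_sum fun e _ => mul_le_mul_of_nonneg_left (hv' e) (hw e)) (c s)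
    exact ⟨v, hv, hy.tail ⟨hy', hv, E, _, g, w, hw, hs, d⟩, d, hv'⟩
  have hpos : ∀ l : E → ℝ, (∀ e, 0 ≤ l e) →
      (∀ C : Finset E, (∀ s, ∑ e ∈ C, par s (g e) = 1) → 1 ≤ ∑ e ∈ C, l e) →
      (∀ s, ∑ e, w e * l e < ∑ e, w e * ind (par s (g e))) → ∀ e, 0 < l e := by
    intro l a b c e
    obtain ⟨v, d1, d2, -, d3⟩ := hlift l a b c
    exact (h01 v d2 d1 _ _ (hloop e) _).trans_le (d3 e)
  obtain ⟨x, x0, x1, x2, x3⟩ := vertex (fun C : Finset E => ∀ s, ∑ e ∈ C, par s (g e) = 1) w hw'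
    (fun s => ∑ e, w e * ind (par s (g e))) hpos (fun e => len y (g e))
    (fun e => fl_nonneg hy' _ _ _) (fun C hC => valid_odd g hy' C hC) hs
  obtain ⟨v, v0, v1, v2, v3⟩ := hlift x x0 x1 x2
  have hxv : ∀ e, x e = len v (g e) := by
    have := x3 (fun e => x e - len v (g e)) fun C hC => le_antisymm (by
      rw [sum_sub_distrib, hC.2]; linarith [valid_odd g v0 C hC.1])
      (sum_nonneg fun e _ => sub_nonneg.mpr (v3 e))
    exact fun e => sub_eq_zero.mp (congrFun this e)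
  obtain ⟨r, hr, h⟩ := lehman (fun s e => par s (g e)) x (hpos x x0 x1 x2)
    (fun e => by
      have := h01 v v1 v0 _ _ (hloop e) (1 + (g e).2.2)
      rw [← fl_fl, fl_one] at this
      rw [hxv, len]; linarith) x1 x3
    (fun j => by
      rcases farkas (fun s (e : {e // e ≠ j}) => ind (par s (g e))) (fun e => len v (g e)) with
        ⟨w', a, b⟩ | ⟨μ, a, b, c⟩
      · exact absurd b (hdrop j w' v v1 v0 a)
      · exact ⟨μ, a, b, fun e he => hxv e ▸ c ⟨e, he⟩⟩)
    (fun μ a b c => by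
      have h1 : ∑ s, μ s * ∑ e, w e * x e < ∑ s, μ s * ∑ e, w e * ind (par s (g e)) := by
        obtain ⟨s, -, hs⟩ := exists_ne_zero_of_sum_ne_zero (b ▸ one_ne_zero : ∑ s, μ s ≠ 0)
        exact sum_lt_sum (fun s _ => mul_le_mul_of_nonneg_left (x2 s).le (a s))
          ⟨s, mem_univ _, mul_lt_mul_of_pos_left (x2 s) (lt_of_le_of_ne (a s) hs.symm)⟩
      rw [← sum_mul, b, one_mul] at h1
      simp only [mul_sum] at h1
      rw [sum_comm] at h1
      refine absurd h1 (not_lt.mpr (sum_le_sum fun e _ => ?_))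
      refine le_trans (le_of_eq ?_) (mul_le_mul_of_nonneg_left (c e) (hw e))
      rw [mul_sum]
      exact sum_congr rfl fun s _ => by ring)
  rcases h with ⟨rfl, s₁, s₂, s₃, h⟩ | ⟨j, C, c1, c2, c3, c4⟩
  · refine Or.inl ⟨s₁ + s₂ + s₃, v1.tail ⟨v0, Y_mem _, E, _, g, w, hw, v2, fun s => ?_⟩⟩
    refine lt_of_eq_of_lt (sum_congr rfl fun e _ => ?_) (x2 s)
    rw [len_Y (hloop e)]
    · have := hr e
      push_cast at this
      congr 1; linarith
    · have := h e
      simp only [par, Pi.add_apply] at this ⊢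
      linear_combination this - self_z (g e).2.2
  right
  obtain ⟨e₂, d1, c, d2, -⟩ := incident g (C.erase j) (g j).2.1 (by
    have a := c1 (Pi.single (g j).2.1 1)
    have b := c1 0
    rw [← add_sum_erase _ _ c3] at a b
    intro h
    have := add_right_cancel (a.trans (b.symm.trans (by rw [h])))
    simp [par, hloop j] at this)
  obtain ⟨d3, d4⟩ := mem_erase.mp d1
  let f : SE ι := ((g j).1, c, (g j).2.2 + (g e₂).2.2)
  have hf : ∀ s, par s f = par s (g j) + par s (g e₂) := fun s => by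
    rw [d2 s]; simp only [par, f]
    linear_combination -self_z (s (g j).2.1)
  have hf' : len v f ≤ x j + x e₂ := by
    have := valid g v0 {j, e₂} (g j).1 c ((g j).2.2 + (g e₂).2.2) fun s => by
      rw [sum_pair d3.symm, ← hf]; rfl
    rwa [sum_pair d3.symm, ← hxv, ← hxv] at this
  have hr0 : (0 : ℝ) < r := by rw [← c2]; exact_mod_cast card_pos.mpr ⟨j, c3⟩
  rcases farkas (fun s e => ind (par s (Function.update g j f e)))
    (fun e => len v (Function.update g j f e)) with ⟨w', a, b⟩ | ⟨μ, a, b, c⟩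
  · refine ⟨_, w', v, v1, v0, a, b, C.erase e₂, fun s => ?_, fun D hD => ?_⟩
    · have h1 : j ∈ C.erase e₂ := mem_erase.mpr ⟨d3.symm, c3⟩
      have h2 := c1 s
      rw [← add_sum_erase _ _ d4, ← add_sum_erase _ _ h1] at h2
      rw [← add_sum_erase _ _ h1, Function.update_self, hf, sum_congr rfl fun e he => by
        rw [Function.update_of_ne (ne_of_mem_erase he)]]
      linear_combination h2
    · have h1 := mul_le_mul_of_nonneg_right (x1 D hD) hr0.le
      rw [sum_mul, sum_congr rfl fun e _ => hr e] at h1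
      simp only [one_mul, sum_const, nsmul_eq_mul, mul_one, Nat.cast_le] at h1
      have := card_erase_lt_of_mem d4
      omega
  · have h1 := c4 e₂ d4 d3 μ a b fun e he => by
      have := c e
      rwa [Function.update_of_ne he, ← hxv] at this
    have h2 := c j
    simp only [Function.update_self, hf] at h2
    have h3 := mul_le_mul_of_nonneg_left (h2.trans hf') hr0.le
    linarith [hr j, hr e₂]

lemma core [Fintype ι] [DecidableEq ι] {y₀ : ι → ι → ℝ} (h0 : R y₀ y₀)
    (h01 : ∀ y, ReflTransGen R y₀ y → y ∈ MET ι → ∀ i j, i ≠ j → ∀ β, 0 < fl β (y i j)) :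
    ∃ τ, ReflTransGen R y₀ (Y τ) := by
  classical
  have hex : ∃ n, ∃ (E : Type) (_ : Fintype E) (g : E → SE ι) (w : E → ℝ) (y : ι → ι → ℝ),
      ReflTransGen R y₀ y ∧ y ∈ MET ι ∧ (∀ e, 0 ≤ w e) ∧ Sep g w y ∧ Fintype.card E = n := by
    obtain ⟨a, -, E, _, g, w, b, c, -⟩ := h0
    exact ⟨_, E, _, g, w, y₀, ReflTransGen.refl, a, b, c, rfl⟩
  obtain ⟨E, _, g, w, y, a, b, c, d, e⟩ := Nat.find_spec hex
  have hmin : ∀ (E' : Type) [Fintype E'] (g : E' → SE ι) (w : E' → ℝ) y, ReflTransGen R y₀ y →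
      y ∈ MET ι → (∀ e, 0 ≤ w e) → Sep g w y → Fintype.card E ≤ Fintype.card E' :=
    fun E' _ g w y a b c d => e ▸ Nat.find_min' hex ⟨E', _, g, w, y, a, b, c, d, rfl⟩
  have key : ∀ n, ∀ (g : E → SE ι) (w : E → ℝ) (y : ι → ι → ℝ), ReflTransGen R y₀ y →
      y ∈ MET ι → (∀ e, 0 ≤ w e) → Sep g w y → ∀ C : Finset E,
      (∀ s, ∑ e ∈ C, par s (g e) = 1) → C.card < n → ∃ τ, ReflTransGen R y₀ (Y τ) := by
    intro n
    induction n with
    | zero => intros; omega
    | succ n ih =>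
      intro g w y a b c d C h1 h2
      rcases step h01 hmin g w y a b c d with h | ⟨g', w', y', a', b', c', d', C', h3, h4⟩
      · exact h
      · exact ih g' w' y' a' b' c' d' C' h3 (by have := h4 C h1; omega)
  rcases step h01 hmin g w y a b c d with h | ⟨g', w', y', a', b', c', d', C', h3, -⟩
  · exact h
  · exact key _ g' w' y' a' b' c' d' C' h3 (Nat.lt_succ_self _)

/-- pull back of a point along a map of index sets, with switching -/
noncomputable def pull {ι' : Type} (π : ι → ι') (ε : ι → ZMod 2) (y : ι' → ι' → ℝ) (k l : ι) : ℝ :=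
  fl (ε k + ε l) (y (π k) (π l))

lemma pull_mem {ι' : Type} (π : ι → ι') (ε : ι → ZMod 2) {y : ι' → ι' → ℝ} (hy : y ∈ MET ι') :
    pull π ε y ∈ MET ι := by
  refine ⟨fun i => by rw [pull, self_z, fl_zero, hy.1], fun i j => by
    rw [pull, pull, hy.2.1, add_comm], fun i j k => ?_, fun i j k => ?_⟩
  · have := fl_tri hy (ε i + ε k) (ε k + ε j) (π i) (π k) (π j)
    rwa [show ε i + ε k + (ε k + ε j) = ε i + ε j by linear_combination self_z (ε k)] at this
  · have := fl_tri hy (1 + (ε i + ε j)) (1 + (ε i + ε k)) (π j) (π i) (π k)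
    rw [show 1 + (ε i + ε j) + (1 + (ε i + ε k)) = ε j + ε k by
      linear_combination self_z (ε i) + two_z, ← fl_fl 1, ← fl_fl 1, fl_one, fl_one,
      hy.2.1 (π j) (π i)] at this
    unfold pull
    linarith

lemma R_of_pull {ι' : Type} (π : ι → ι') (ε : ι → ZMod 2) {y y' : ι' → ι' → ℝ} (hy : y ∈ MET ι')
    (hy' : y' ∈ MET ι') (h : R (pull π ε y) (pull π ε y')) : R y y' := by
  obtain ⟨-, -, E, _, g, w, a, b, c⟩ := h
  have key : ∀ z : ι' → ι' → ℝ, Sep g w (pull π ε z) → Sep (fun e =>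
      (π (g e).1, π (g e).2.1, (g e).2.2 + (ε (g e).1 + ε (g e).2.1))) w z := by
    intro z hz s
    convert hz (fun k => s (π k) + ε k) using 4 with e _ e _
    · rw [len, len, pull, fl_fl]
    · simp only [par]; ring
  exact ⟨hy, hy', E, _, _, w, a, key y b, key y' c⟩

theorem reach (n : ℕ) : ∀ (ι : Type) [Fintype ι] [DecidableEq ι], Fintype.card ι < n →
    ∀ y₀ : ι → ι → ℝ, R y₀ y₀ → ∃ τ, ReflTransGen R y₀ (Y τ) := by
  induction n with
  | zero => intros; omega
  | succ n ih =>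
    intro ι _ _ hn y₀ h0
    by_cases h01 : ∀ y, ReflTransGen R y₀ y → y ∈ MET ι → ∀ i j, i ≠ j → ∀ β, 0 < fl β (y i j)
    · exact core h0 h01
    push Not at h01
    obtain ⟨y, a, b, i, j, hij, β, hβ⟩ := h01
    let π : ι → {k // k ≠ j} := fun k => if h : k = j then ⟨i, hij⟩ else ⟨k, h⟩
    let ε : ι → ZMod 2 := fun k => if k = j then β else 0
    have h1 : ∀ z : {k // k ≠ j} → {k // k ≠ j} → ℝ, pull Subtype.val 0 (pull π ε z) = z := by
      intro z
      funext k l
      simp [pull, π, ε, k.2, l.2]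
    have h2 : ∀ l, y j l = fl β (y i l) := fun l => by
      have c1 := fl_tri b β β j i l
      have c2 := fl_tri b β 0 i j l
      rw [self_z, fl_zero, b.2.1 j i] at c1
      rw [add_zero, fl_zero] at c2
      linarith
    have h3 : pull π ε (pull Subtype.val 0 y) = y := by
      funext k l
      by_cases hk : k = j <;> by_cases hl : l = j
      · simp [pull, π, ε, hk, hl, self_z, b.1]
      · simp [pull, π, ε, hk, hl, h2]
      · simp [pull, π, ε, hk, hl, b.2.1 k j, h2, b.2.1 k i]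
      · simp [pull, π, ε, hk, hl]
    have h4 := pull_mem (Subtype.val : {k // k ≠ j} → ι) 0 b
    have h5 : R (pull (Subtype.val : {k // k ≠ j} → ι) 0 y) (pull Subtype.val 0 y) :=
      R_of_pull π ε h4 h4 (by rw [h3]; exact h0.chain a)
    obtain ⟨τ, hτ⟩ := ih {k // k ≠ j} (by
      have := Fintype.card_subtype_lt (p := fun k => k ≠ j) (x := j) (by simp)
      omega) _ h5
    have h6 := ReflTransGen.lift (r := R) (p := R) (pull π ε) (fun u v h =>
      R_of_pull (Subtype.val : {k // k ≠ j} → ι) 0 (pull_mem _ _ h.1) (pull_mem _ _ h.2.1)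
        (by rwa [h1, h1])) _ _ hτ
    rw [Function.onFun, h3] at h6
    refine ⟨fun k => τ (π k), (a.trans h6).tail (R_of_pull (Subtype.val : {k // k ≠ j} → ι) 0
      (pull_mem _ _ (Y_mem _)) (Y_mem _) ?_)⟩
    have h7 : pull (Subtype.val : {k // k ≠ j} → ι) 0 (Y fun k => τ (π k)) = Y τ := by
      funext k l
      simp [pull, Y, π, k.2, l.2, Subtype.ext_iff]
    rw [h1, h7]
    exact h5.chain hτ

lemma five (τ : Fin 5 → ZMod 2) : R (Y τ) (Y τ) := by
  have h : Sep (fun e : {p : Fin 5 × Fin 5 // p.1 ≠ p.2} =>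
      ((e.1.1, e.1.2, 1 + τ e.1.1 + τ e.1.2) : SE (Fin 5))) (fun _ => 1) (Y τ) := by
    intro s
    have h1 : ∀ t : Fin 5 → ZMod 2, 8 ≤ (univ.filter fun e : {p : Fin 5 × Fin 5 // p.1 ≠ p.2} =>
        1 + t e.1.1 + t e.1.2 = 1).card := by decide
    rw [sum_congr rfl (g := fun _ => (1 / 3 : ℝ)) fun e _ => by
      rw [one_mul, len_Y e.2]
      simp only [par]
      linear_combination self_z (τ e.1.1) + self_z (τ e.1.2)]
    simp only [one_mul]
    rw [sum_ind]
    have h2 : (8 : ℝ) ≤ _ := Nat.cast_le.mpr (h1 (τ + s))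
    have h3 : Fintype.card {p : Fin 5 × Fin 5 // p.1 ≠ p.2} = 20 := by decide
    simp only [sum_const, card_univ, h3]
    refine lt_of_lt_of_le (by norm_num) (h2.trans (le_of_eq ?_))
    congr 2
    refine filter_congr fun e _ => ?_
    simp only [par, Pi.add_apply]
    constructor <;> intro h <;> linear_combination h
  exact ⟨Y_mem _, Y_mem _, _, inferInstance, _, _, fun _ => zero_le_one, h, h⟩

lemma link [Fintype ι] [DecidableEq ι] (h6 : 6 ≤ Fintype.card ι) (τ τ' : ι → ZMod 2) (k : ι)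
    (h : ∀ l, l ≠ k → τ l = τ' l) : R (Y τ) (Y τ') := by
  obtain ⟨f⟩ : Nonempty (Fin 5 ↪ {l // l ≠ k}) := Function.Embedding.nonempty_of_card_le (by
    rw [Fintype.card_subtype_compl, Fintype.card_subtype_eq, Fintype.card_fin]; omega)
  have h1 : ∀ σ : ι → ZMod 2, pull (fun a => (f a : ι)) 0 (Y σ) = Y fun a => σ (f a) := by
    intro σ
    funext a b
    simp [pull, Y, Subtype.val_inj]
  refine R_of_pull (fun a => (f a : ι)) 0 (Y_mem _) (Y_mem _) ?_
  rw [h1, h1, show (fun a => τ' (f a)) = fun a => τ (f a) from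
    funext fun a => (h _ (f a).2).symm]
  exact five _

lemma link_all [Fintype ι] [DecidableEq ι] (h6 : 6 ≤ Fintype.card ι) (τ τ' : ι → ZMod 2) :
    ReflTransGen R (Y τ) (Y τ') := by
  have key : ∀ T : Finset ι, ∀ τ' : ι → ZMod 2, (∀ l, l ∉ T → τ l = τ' l) →
      ReflTransGen R (Y τ) (Y τ') := by
    intro T
    induction T using Finset.induction_on with
    | empty => intro τ' h; rw [show τ' = τ from funext fun l => (h l (notMem_empty l)).symm]
    | insert k T _ ih =>
      intro τ' h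
      refine (ih (Function.update τ' k (τ k)) fun l hl => ?_).tail
        (link h6 _ _ k fun l hl => Function.update_of_ne hl _ _)
      by_cases hlk : l = k
      · rw [hlk, Function.update_self]
      · rw [Function.update_of_ne hlk]
        exact h l (by simp [hlk, hl])
  exact key univ τ' fun l hl => (hl (mem_univ l)).elim

theorem total [Fintype ι] [DecidableEq ι] (h6 : 6 ≤ Fintype.card ι) {x y : ι → ι → ℝ}
    (hx : R x x) (hy : R y y) : ReflTransGen R x y := by
  obtain ⟨τ, h1⟩ := reach _ ι (Nat.lt_succ_self _) x hx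
  obtain ⟨τ', h2⟩ := reach _ ι (Nat.lt_succ_self _) y hy
  have h3 : ∀ u v : ι → ι → ℝ, ReflTransGen R u v → ReflTransGen R v u := by
    intro u v h
    induction h with
    | refl => exact ReflTransGen.refl
    | tail _ h ih => exact ih.head h.symm
  exact (h1.trans (link_all h6 τ τ')).trans (h3 _ _ h2)

end Pool.Agent.H373Z.Met
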