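import Mathlib

set_option autoImplicit false

namespace Pool.Agent.H373Z.Met

open Finset

lemma ratio {κ : Type*} [Fintype κ] (α β : κ → ℝ) (hα : ∀ k, 0 ≤ α k) (k₀ : κ) (h₀ : β k₀ < 0) :
    ∃ t, 0 ≤ t ∧ (∀ k, 0 ≤ α k + t * β k) ∧ ∃ k, β k < 0 ∧ α k + t * β k = 0 := by
  classical
  obtain ⟨k, hk, hmin⟩ := exists_min_image (univ.filter fun k => β k < 0) (fun k => α k / (-β k))
    ⟨k₀, by simpa using h₀⟩
  have hk' : β k < 0 := by simpa using hk
  have ht : 0 ≤ α k / (-β k) := div_nonneg (hα k) (by linarith)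
  refine ⟨α k / (-β k), ht, fun l => ?_, k, hk', ?_⟩
  · by_cases hl : β l < 0
    · have := hmin l (by simpa using hl)
      rw [le_div_iff₀ (by linarith)] at this
      linarith
    · have := mul_nonneg ht (not_lt.mp hl)
      linarith [hα l]
  · have : β k ≠ 0 := hk'.ne
    field_simp
    ring

variable {V κ : Type*} [AddCommGroup V] [Module ℝ V] [Fintype κ]

/-- a polyhedron -/
def poly (a : κ → V →ₗ[ℝ] ℝ) (b : κ → ℝ) : Set V := {x | ∀ k, a k x ≤ b k}

variable {a : κ → V →ₗ[ℝ] ℝ} {b : κ → ℝ}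

lemma pointed {v : V} (hv : v ∈ (poly a b).extremePoints ℝ) {u : V}
    (hu : ∀ k, a k v = b k → a k u = 0) : u = 0 := by
  have h1 : ∀ᶠ t : ℝ in nhds 0, ∀ k, a k v + t * a k u ≤ b k ∧ a k v - t * a k u ≤ b k := by
    refine Filter.eventually_all.mpr fun k => ?_
    by_cases hk : a k v = b k
    · simp [hu k hk, hk]
    · have hlt : a k v < b k := lt_of_le_of_ne (hv.1 k) hk
      have c1 : Continuous fun t : ℝ => a k v + t * a k u := by fun_prop
      have c2 : Continuous fun t : ℝ => a k v - t * a k u := by fun_prop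
      filter_upwards [(c1.tendsto 0).eventually_le_const (by simpa using hlt),
        (c2.tendsto 0).eventually_le_const (by simpa using hlt)] with t h1 h2 using ⟨h1, h2⟩
  obtain ⟨t, ht, ht0⟩ := ((h1.filter_mono nhdsWithin_le_nhds).and
    (self_mem_nhdsWithin (a := (0 : ℝ)) (s := Set.Ioi 0))).exists
  have h2 := hv.2 (x₁ := v + t • u) (fun k => by simpa using (ht k).1) (x₂ := v - t • u)
    (fun k => by simpa using (ht k).2) ⟨1 / 2, 1 / 2, by norm_num, by norm_num, by norm_num, by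
      rw [← smul_add, add_add_sub_cancel, ← two_smul ℝ, smul_smul]; norm_num⟩
  have h3 : t • u = 0 := by simpa using h2
  exact (smul_eq_zero.mp h3).resolve_left (ne_of_gt ht0)

lemma improve (hrec : ∀ d, (∀ k, a k d ≤ 0) → d = 0) {v : V}
    (hv : v ∈ (poly a b).extremePoints ℝ) (c : V →ₗ[ℝ] ℝ) {x : V} (hx : x ∈ poly a b)
    (hc : c v < c x) :
    ∃ v' ∈ (poly a b).extremePoints ℝ, c v < c v' ∧ IsExtreme ℝ (poly a b) (segment ℝ v v') := by
  classical
  let T : V → Finset κ := fun d => univ.filter fun k => a k v = b k ∧ a k d = 0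
  have hex : ∃ n, ∃ d, (∀ k, a k v = b k → a k d ≤ 0) ∧ 0 < c d ∧ (T d)ᶜ.card = n :=
    ⟨_, x - v, fun k hk => by rw [map_sub, hk]; linarith [hx k], by rw [map_sub]; linarith, rfl⟩
  obtain ⟨d, hd1, hd2, hd3⟩ := Nat.find_spec hex
  have hline : ∀ u, (∀ k, a k v = b k → a k d = 0 → a k u = 0) → u = (c u / c d) • d := by
    have key : ∀ u, (∀ k, a k v = b k → a k d = 0 → a k u = 0) → c u = 0 → ∀ k, a k v = b k →
        ¬ 0 < a k u := by
      intro u hu hcu k₀ hk₀ hpos
      obtain ⟨t, -, h1, k, h2, h3⟩ := ratio (fun k => if a k v = b k then -a k d else 0)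
        (fun k => if a k v = b k then -a k u else 0)
        (fun k => by split_ifs with h; exacts [by linarith [hd1 k h], le_rfl]) k₀
        (by simpa [hk₀] using hpos)
      have hk : a k v = b k := by by_contra h; simp [h] at h2
      simp only [hk, if_true] at h2 h3
      refine Nat.find_min hex (m := (T (d + t • u))ᶜ.card) ?_ ⟨d + t • u, fun l hl => ?_, ?_, rfl⟩
      · rw [← hd3]
        refine card_lt_card (compl_ssubset_compl.mpr ⟨fun l hl => ?_, fun hsub => ?_⟩)
        · simp only [T, mem_filter, mem_univ, true_and] at hl ⊢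
          exact ⟨hl.1, by simp [hl.2, hu l hl.1 hl.2]⟩
        · have := hsub (x := k) (by
            simp only [T, mem_filter, mem_univ, true_and, map_add, map_smul, smul_eq_mul]
            exact ⟨hk, by linarith⟩)
          simp only [T, mem_filter, mem_univ, true_and] at this
          linarith [hu k hk this.2]
      · have := h1 l
        simp only [hl, if_true] at this
        simp only [map_add, map_smul, smul_eq_mul]
        linarith
      · simpa [hcu] using hd2
    intro u hu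
    rw [← sub_eq_zero]
    have h1 : ∀ k, a k v = b k → a k d = 0 → a k (u - (c u / c d) • d) = 0 := fun k h1 h2 => by
      simp [hu k h1 h2, h2]
    have h2 : c (u - (c u / c d) • d) = 0 := by
      simp [div_mul_cancel₀ _ hd2.ne']
    refine pointed hv fun k hk => le_antisymm (not_lt.mp (key _ h1 h2 k hk)) ?_
    have := key (-(u - (c u / c d) • d)) (fun k h h' => by rw [map_neg, h1 k h h', neg_zero])
      (by rw [map_neg, h2, neg_zero]) k hk
    rw [map_neg] at this
    linarith [not_lt.mp this]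
  have hd0 : d ≠ 0 := by rintro rfl; simp at hd2
  obtain ⟨k₀, hk₀⟩ : ∃ k, 0 < a k d := by
    by_contra h
    push Not at h
    exact hd0 (hrec d h)
  obtain ⟨k₁, hk₁, hk₁'⟩ : ∃ k, a k v = b k ∧ a k d < 0 := by
    by_contra h
    push Not at h
    exact hd0 (pointed hv fun k hk => le_antisymm (hd1 k hk) (h k hk))
  obtain ⟨t, ht0, h1, k₂, h2, h3⟩ := ratio (fun k => b k - a k v) (fun k => -a k d)
    (fun k => by linarith [hv.1 k]) k₀ (by linarith)
  have ht : 0 < t := by
    refine lt_of_le_of_ne ht0 ?_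
    rintro rfl
    linarith [hd1 k₂ (by linarith)]
  have hv' : v + t • d ∈ poly a b := fun k => by
    have := h1 k
    simp only [map_add, map_smul, smul_eq_mul]
    linarith
  have hF : ∀ y ∈ poly a b, (∀ k, a k v = b k → a k d = 0 → a k y = b k) →
      ∃ l, 0 ≤ l ∧ l ≤ t ∧ y = v + l • d := by
    intro y hy h
    have h4 := hline (y - v) fun k h1 h2 => by rw [map_sub, h k h1 h2, h1, sub_self]
    generalize c (y - v) / c d = l at h4
    have h5 : y = v + l • d := by rw [← h4]; abel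
    have h6 := hy k₁
    have h7 := hy k₂
    rw [h5] at h6 h7
    simp only [map_add, map_smul, smul_eq_mul] at h6 h7
    exact ⟨l, by nlinarith, by nlinarith, h5⟩
  have hface : ∀ x₁ ∈ poly a b, ∀ x₂ ∈ poly a b, ∀ l : ℝ, v + l • d ∈ openSegment ℝ x₁ x₂ →
      ∀ k, a k v = b k → a k d = 0 → a k x₁ = b k := by
    rintro x₁ h₁ x₂ h₂ l ⟨p, q, hp, hq, hpq, h⟩ k hk hk'
    have h4 := congrArg (a k) h
    simp only [map_add, map_smul, smul_eq_mul, hk, hk'] at h4
    have h5 : b k = p * b k + q * b k := by rw [← add_mul, hpq, one_mul]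
    nlinarith [h₁ k, h₂ k]
  have hseg : ∀ y, y ∈ segment ℝ v (v + t • d) ↔ ∃ l, 0 ≤ l ∧ l ≤ t ∧ y = v + l • d := by
    intro y
    rw [segment_eq_image']
    constructor
    · rintro ⟨s, hs, rfl⟩
      exact ⟨s * t, mul_nonneg hs.1 ht0, by nlinarith [hs.2], by simp [smul_smul]⟩
    · rintro ⟨l, h4, h5, rfl⟩
      exact ⟨l / t, ⟨by positivity, (div_le_one ht).mpr h5⟩, by
        simp [smul_smul, div_mul_cancel₀ _ ht.ne']⟩
  refine ⟨v + t • d, ⟨hv', fun x₁ h₁ x₂ h₂ h => ?_⟩, by simpa using mul_pos ht hd2, ?_, ?_⟩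
  · obtain ⟨l₁, -, h4, rfl⟩ := hF x₁ h₁ (hface x₁ h₁ x₂ h₂ t h)
    obtain ⟨l₂, -, h5, rfl⟩ := hF x₂ h₂ (hface x₂ h₂ _ h₁ t (by rwa [openSegment_symm]))
    obtain ⟨p, q, hp, hq, hpq, h⟩ := h
    have h6 := congrArg c h
    simp only [map_add, map_smul, smul_eq_mul] at h6
    have h7 : c v = p * c v + q * c v := by rw [← add_mul, hpq, one_mul]
    have h8 : p * l₁ + q * l₂ = t := by
      have : (p * l₁ + q * l₂) * c d = t * c d := by linarith
      exact mul_right_cancel₀ hd2.ne' this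
    have h9 : t = p * t + q * t := by rw [← add_mul, hpq, one_mul]
    have : l₁ = t := by nlinarith
    rw [this]
  · intro y hy
    obtain ⟨l, h4, h5, rfl⟩ := (hseg y).mp hy
    intro k
    have h6 := h1 k
    have h7 := hv.1 k
    simp only [map_add, map_smul, smul_eq_mul]
    rcases le_total 0 (a k d) with h | h <;> nlinarith
  · intro x₁ h₁ x₂ h₂ y hy h
    obtain ⟨l, -, -, rfl⟩ := (hseg y).mp hy
    exact (hseg _).mpr (hF x₁ h₁ (hface x₁ h₁ x₂ h₂ l h))

lemma finite_ext : ((poly a b).extremePoints ℝ).Finite := by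
  classical
  refine Set.Finite.of_finite_image (f := fun v => univ.filter fun k => a k v = b k)
    (Set.toFinite _) fun v hv w hw h => ?_
  rw [← sub_eq_zero]
  refine pointed hv fun k hk => ?_
  have : k ∈ univ.filter fun k => a k w = b k := by
    simp only at h
    rw [← h]; simpa using hk
  rw [map_sub, hk, (mem_filter.mp this).2, sub_self]

variable {S : Type*} [Fintype S]

/-- the graph of the vertices outside the family `δ` -/
def ncGraph (P : Set V) (δ : S → V) :
    SimpleGraph {x : V // x ∈ P.extremePoints ℝ ∧ ¬ ∃ s, x = δ s} :=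
  SimpleGraph.fromRel fun u v => IsExtreme ℝ P (segment ℝ u.1 v.1)

variable {δ : S → V}

omit [Fintype S] in
lemma climb (hrec : ∀ d, (∀ k, a k d ≤ 0) → d = 0) (c : V →ₗ[ℝ] ℝ)
    (v : {x : V // x ∈ (poly a b).extremePoints ℝ ∧ ¬ ∃ s, x = δ s}) (hv : ∀ s, c (δ s) < c v) :
    ∃ w, (ncGraph (poly a b) δ).Reachable v w ∧ ∀ x ∈ poly a b, c x ≤ c w := by
  have hfin : {w | (ncGraph (poly a b) δ).Reachable v w}.Finite :=
    Set.Finite.of_finite_image (f := Subtype.val) (finite_ext.subset (by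
      rintro _ ⟨w, -, rfl⟩; exact w.2.1)) Subtype.val_injective.injOn
  obtain ⟨w, hw, hmax⟩ := Set.exists_max_image _ (fun w => c w.1) hfin ⟨v, SimpleGraph.Reachable.refl v⟩
  refine ⟨w, hw, fun x hx => ?_⟩
  by_contra h
  obtain ⟨w', h1, h2, h3⟩ := improve hrec w.2.1 c hx (not_le.mp h)
  have h4 : ¬ ∃ s, w' = δ s := by
    rintro ⟨s, rfl⟩
    linarith [hv s, hmax v (SimpleGraph.Reachable.refl v)]
  have h5 : (ncGraph (poly a b) δ).Adj w ⟨w', h1, h4⟩ := by
    refine (SimpleGraph.fromRel_adj _ _ _).mpr ⟨fun h => ?_, Or.inl h3⟩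
    rw [h] at h2
    exact lt_irrefl _ h2
  linarith [hmax _ (SimpleGraph.Reachable.trans hw h5.reachable)]

lemma same_fun (hrec : ∀ d, (∀ k, a k d ≤ 0) → d = 0) (c : V →ₗ[ℝ] ℝ)
    (v v' : {x : V // x ∈ (poly a b).extremePoints ℝ ∧ ¬ ∃ s, x = δ s})
    (hv : ∀ s, c (δ s) < c v) (hv' : ∀ s, c (δ s) < c v') :
    (ncGraph (poly a b) δ).Reachable v v' := by
  classical
  obtain ⟨w, h1, h2⟩ := climb hrec c v' hv'
  let g : V →ₗ[ℝ] ℝ := ∑ k ∈ univ.filter fun k => a k w = b k, a k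
  have h3 : ∀ᶠ t : ℝ in nhds 0, ∀ s, c (δ s) + t * g (δ s) < c v + t * g v := by
    refine Filter.eventually_all.mpr fun s => ?_
    exact ContinuousAt.eventually_lt (by fun_prop) (by fun_prop) (by simpa using hv s)
  obtain ⟨t, ht, ht0⟩ := ((h3.filter_mono nhdsWithin_le_nhds).and
    (self_mem_nhdsWithin (a := (0 : ℝ)) (s := Set.Ioi 0))).exists
  obtain ⟨u, h4, h5⟩ := climb hrec (c + t • g) v (fun s => by simpa using ht s)
  have h6 := h5 w w.2.1.1
  have h7 := h2 u u.2.1.1
  simp only [LinearMap.add_apply, LinearMap.smul_apply, smul_eq_mul] at h6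
  have h8 : g w ≤ g u := by
    have : (0 : ℝ) < t := ht0
    nlinarith
  have h9 : ∀ k ∈ univ.filter fun k => a k w = b k, a k u ≤ a k w := fun k hk => by
    rw [(mem_filter.mp hk).2]; exact u.2.1.1 k
  simp only [g, LinearMap.sum_apply] at h8
  have h10 := (sum_eq_sum_iff_of_le h9).mp (le_antisymm (sum_le_sum h9) h8)
  have h11 : u = w := by
    refine Subtype.ext (sub_eq_zero.mp (pointed w.2.1 fun k hk => ?_))
    rw [map_sub, h10 k (by simpa using hk), sub_self]
  exact (h11 ▸ h4).trans h1.symm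

omit [Fintype S] in
lemma exists_vertex (hrec : ∀ d, (∀ k, a k d ≤ 0) → d = 0) {v₀ : V}
    (h₀ : v₀ ∈ (poly a b).extremePoints ℝ) (c : V →ₗ[ℝ] ℝ) {x : V} (hx : x ∈ poly a b)
    (hc : ∀ s, c (δ s) < c x) :
    ∃ v : {x : V // x ∈ (poly a b).extremePoints ℝ ∧ ¬ ∃ s, x = δ s}, ∀ s, c (δ s) < c v := by
  obtain ⟨w, hw, hmax⟩ := Set.exists_max_image _ (fun w => c w) finite_ext ⟨v₀, h₀⟩
  have h1 : c x ≤ c w := by
    by_contra h
    obtain ⟨w', h1, h2, -⟩ := improve hrec hw c hx (not_le.mp h)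
    linarith [hmax w' h1]
  refine ⟨⟨w, hw, ?_⟩, fun s => (hc s).trans_le h1⟩
  rintro ⟨s, rfl⟩
  linarith [hc s]

lemma same_point (hrec : ∀ d, (∀ k, a k d ≤ 0) → d = 0) (c c' : V →ₗ[ℝ] ℝ) {x : V}
    (hx : x ∈ poly a b) (hc : ∀ s, c (δ s) < c x) (hc' : ∀ s, c' (δ s) < c' x)
    (v v' : {x : V // x ∈ (poly a b).extremePoints ℝ ∧ ¬ ∃ s, x = δ s})
    (hv : ∀ s, c (δ s) < c v) (hv' : ∀ s, c' (δ s) < c' v') :
    (ncGraph (poly a b) δ).Reachable v v' := by
  by_contra hn
  let U : (({x : V // x ∈ (poly a b).extremePoints ℝ ∧ ¬ ∃ s, x = δ s}) → Prop) → Set ℝ :=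
    fun p => {t | ∃ u, p u ∧ ∀ s, ((1 - t) • c + t • c') (δ s) < ((1 - t) • c + t • c') u}
  have hU : ∀ p, IsOpen (U p) := by
    intro p
    rw [isOpen_iff_eventually]
    rintro t ⟨u, h1, h2⟩
    have : ∀ᶠ t' in nhds t, ∀ s, ((1 - t') • c + t' • c') (δ s) < ((1 - t') • c + t' • c') u := by
      refine Filter.eventually_all.mpr fun s => ?_
      have h3 := h2 s
      simp only [LinearMap.add_apply, LinearMap.smul_apply, smul_eq_mul] at h3 ⊢
      exact ContinuousAt.eventually_lt (by fun_prop) (by fun_prop) h3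
    filter_upwards [this] with t' ht' using ⟨u, h1, ht'⟩
  obtain ⟨t, -, ⟨u, h1, h2⟩, u', h3, h4⟩ := isPreconnected_Icc (a := (0 : ℝ)) (b := 1) _ _
    (hU fun u => (ncGraph (poly a b) δ).Reachable v u)
    (hU fun u => ¬ (ncGraph (poly a b) δ).Reachable v u)
    (fun t ht => by
      obtain ⟨u, hu⟩ := exists_vertex (δ := δ) hrec v.2.1 ((1 - t) • c + t • c') hx (fun s => by
        simp only [LinearMap.add_apply, LinearMap.smul_apply, smul_eq_mul]
        have h1 := hc s
        have h2 := hc' s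
        rcases ht.1.eq_or_lt with rfl | h0
        · simpa using h1
        · nlinarith [ht.2])
      by_cases h : (ncGraph (poly a b) δ).Reachable v u
      · exact Or.inl ⟨u, h, hu⟩
      · exact Or.inr ⟨u, h, hu⟩)
    ⟨0, by simp, v, SimpleGraph.Reachable.refl v, by simpa using hv⟩
    ⟨1, by simp, v', hn, by simpa using hv'⟩
  exact h3 (h1.trans (same_fun hrec _ u u' h2 h4))

/-- two points of the polyhedron cut off from `δ` by one functional -/
def Lk (P : Set V) (δ : S → V) (x y : V) : Prop :=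
  x ∈ P ∧ y ∈ P ∧ ∃ c : V →ₗ[ℝ] ℝ, ∀ s, c (δ s) < c x ∧ c (δ s) < c y

lemma chain (hrec : ∀ d, (∀ k, a k d ≤ 0) → d = 0) {x y : V}
    (h : Relation.ReflTransGen (Lk (poly a b) δ) x y) (hy : y ∈ poly a b)
    (c c' : V →ₗ[ℝ] ℝ) (hc : ∀ s, c (δ s) < c x) (hc' : ∀ s, c' (δ s) < c' y)
    (v v' : {x : V // x ∈ (poly a b).extremePoints ℝ ∧ ¬ ∃ s, x = δ s})
    (hv : ∀ s, c (δ s) < c v) (hv' : ∀ s, c' (δ s) < c' v') :
    (ncGraph (poly a b) δ).Reachable v v' := by
  induction h generalizing c' v' with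
  | refl => exact same_point hrec c c' hy hc hc' v v' hv hv'
  | tail _ h ih =>
    obtain ⟨h1, h2, e, he⟩ := h
    obtain ⟨u, hu⟩ := exists_vertex (δ := δ) hrec v.2.1 e h1 fun s => (he s).1
    exact (ih h1 e (fun s => (he s).1) u hu).trans
      (same_point hrec e c' hy (fun s => (he s).2) hc' u v' hu hv')

end Pool.Agent.H373Z.Met
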